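import Pool.Agent.Lib_helper68.LSPV.DEFV

/-! LSPV: the mollifier of every level is a mollifier operator for long Hecke polynomials. -/

set_option autoImplicit false

namespace Pool.Agent.LSP

open Pool.Agent.LEV Pool.Agent.LVB Pool.Agent.KSL
open Pool.Agent.FG61 (mu phi cc ff AA Lam)
open Complex MeasureTheory Filter Topology UpperHalfPlane ModularGroup ProbabilityTheory
open scoped MatrixGroups Modular ENNReal ModularForm ComplexConjugate ContDiff

theorem mpv_ka {ε₂ : ℝ} (N : ℕ) : (KA ε₂ N : ℝ) ≤ (N : ℝ) ^ ε₂ := Nat.floor_le (by positivity)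

/-- the mollifier of `x2`, divided by `ell`, is a mollifier operator -/
theorem molv_x2 {κ v κ₁ t ε₂ : ℝ} (h0 : 0 < κ) (h1 : 1000 * κ ≤ v) (h2 : v ≤ 1 / 80)
    (h3 : 0 < κ₁) (h4 : κ₁ ≤ κ) (h5 : 0 < ε₂) (h6 : ε₂ ≤ κ₁ / 1000) (ht0 : 0 ≤ t) (ht1 : t ≤ 1)
    (htv : t * (κ / v) ≤ 1 / 2) (C₀ C₁ : ℕ) {P : ℕ → Prop} (θ : ℕ → ℕ → ℝ) (Xθ : ℕ)
    (hθ : ∀ X : ℕ, Xθ ≤ X → P X → (∀ p ∈ PB κ v X, 0 ≤ θ X p ∧ θ X p ≤ 1) ∧
      ∑ p ∈ PB κ v X, θ X p / p ≤ κ / v) :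
    MolV C₀ C₁ ε₂ P (E2 κ)
      (fun X a e => (ell κ v t X (θ X))⁻¹ * x2 κ v κ₁ t X (θ X) a e)
      (fun X y => (ell κ v t X (θ X))⁻¹ * (Mr (zz X) (MM κ₁ X) 2 y -
        t * ((∑ p ∈ PB κ v X, θ X p * (y p / Real.sqrt p)) * Mr (zz X) (MM (v - κ) X) 2 y))) := by
  have hκ : κ ≤ 1 / 1000 := by linarith
  obtain ⟨Xe, hXe⟩ := mp_ell h0 h2 (by linarith) ht0 htv
  refine ⟨fun c hc => ?_, ?_, fun b hb ε hε => ?_⟩
  · obtain ⟨X₀, hX₀⟩ := fia_grow (a := 1 / 2 + 3 * κ + 2 * ε₂) (c := c) (by linarith) hc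
    obtain ⟨X₁, hX₁⟩ := mo_e2 h0 hκ hc
    refine ⟨X₀ + X₁ + 1, fun N hN => ⟨(hX₁ N (by omega)).1, ?_⟩⟩
    have hN1 : (1 : ℝ) ≤ N := by exact_mod_cast (by omega : 1 ≤ N)
    have hN0 : (0 : ℝ) < N := by linarith
    have e1 : (E2 κ N : ℝ) ≤ (N : ℝ) ^ (1 / 2 + 3 * κ) := Nat.floor_le (by positivity)
    have e2 := mpv_ka (ε₂ := ε₂) N
    calc (E2 κ N : ℝ) * (KA ε₂ N : ℝ) ^ 2 ≤ (N : ℝ) ^ (1 / 2 + 3 * κ) * ((N : ℝ) ^ ε₂) ^ 2 := by
          gcongr
      _ = (N : ℝ) ^ (1 / 2 + 3 * κ + 2 * ε₂) := by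
          rw [← Real.rpow_natCast, ← Real.rpow_mul hN0.le, ← Real.rpow_add hN0]
          congr 1
          push_cast
          ring
      _ ≤ c * N := hX₀ N (by omega)
  · obtain ⟨X₁, hX₁⟩ := y_supp h0 h1 h2 h3 h4 h5 h6
    obtain ⟨X₂, hX₂⟩ := ww_x2_pr h0 h1 h2 h3 h4 h5 h6
    obtain ⟨X₃, hX₃⟩ := mp_ev 4 (a := ε₂) (b := v) (by linarith)
    obtain ⟨X₄, hX₄⟩ := mp_ev 2 (a := 1 / 2 + 2 * κ + 2 * ε₂) (b := 1 / 2 + 3 * κ) (by linarith)
    refine ⟨X₁ + X₂ + X₃ + X₄ + Xe + Xθ + 1, fun X hX hPX a ha hpt => ?_⟩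
    have hX1 : (1 : ℝ) ≤ X := by exact_mod_cast (by omega : 1 ≤ X)
    have hX0 : (0 : ℝ) < X := by linarith
    obtain ⟨hθ1, hθ2⟩ := hθ X (by omega) hPX
    obtain ⟨hl1, hl2⟩ := hXe X (by omega) (θ X) hθ1 hθ2
    obtain ⟨s0, s1, z0, z1, sY⟩ := hX₁ X (by omega) a ha
    obtain ⟨sY1, zY⟩ := sY (θ X)
    have g3 := hX₃ X (by omega)
    have g4 := hX₄ X (by omega)
    have hl0 : (ell κ v t X (θ X))⁻¹ ≠ 0 := inv_ne_zero (by linarith)
    refine ⟨?_, ?_, ?_, ?_⟩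
    · intro e he
      have he2 : x2 κ v κ₁ t X (θ X) a e ≠ 0 := fun h => he (by
        show (ell κ v t X (θ X))⁻¹ * x2 κ v κ₁ t X (θ X) a e = 0
        rw [h, mul_zero])
      by_cases hy : y0 κ₁ X a e = 0
      · have hY : YT (PB κ v X) (θ X) (y1 κ v X a) e ≠ 0 := by
          intro h
          apply he2
          unfold x2
          rw [hy, h]
          ring
        obtain ⟨k1, k2⟩ := sY1 e hY
        exact ⟨k1, mo_le_e2 (by omega) (by linarith) k2⟩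
      · obtain ⟨k1, k2⟩ := s0 e hy
        exact ⟨k1, mo_le_e2 (by omega) (by linarith) k2⟩
    · have e1 : ∑ e ∈ Finset.Icc 1 (E2 κ X),
          (ell κ v t X (θ X))⁻¹ * x2 κ v κ₁ t X (θ X) a e * sg1 e / e =
          (ell κ v t X (θ X))⁻¹ * (∑ e ∈ Finset.Icc 1 (E2 κ X), y0 κ₁ X a e * sg1 e / e -
            t * ∑ e ∈ Finset.Icc 1 (E2 κ X),
              YT (PB κ v X) (θ X) (y1 κ v X a) e * sg1 e / e) := by
        rw [Finset.mul_sum (a := t), ← Finset.sum_sub_distrib, Finset.mul_sum]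
        refine Finset.sum_congr rfl fun e _ => ?_
        unfold x2
        ring
      show ∑ e ∈ Finset.Icc 1 (E2 κ X),
          (ell κ v t X (θ X))⁻¹ * x2 κ v κ₁ t X (θ X) a e * sg1 e / e = 0
      rw [e1, z0, zY]
      ring
    · intro y
      show MX (E2 κ X) (fun e => (ell κ v t X (θ X))⁻¹ * x2 κ v κ₁ t X (θ X) a e) y = _
      rw [sc_MX, mo_mx2 (A := KA ε₂ X) ha.sup
        (fun e he => ⟨(s0 e he).1, mo_le_e2 (by omega) (by linarith) (s0 e he).2⟩)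
        (fun e he => ⟨(s1 e he).1, fun p hp => ?_⟩)
        (fun e he => (mp_supp ha.sup he).2)
        (fun e he => ⟨(mp_supp ha.sup he).2,
          mo_le_e2 (by omega) (by linarith) (s1 e he).2⟩) y]
      · ring
      · obtain ⟨-, -, p3, -⟩ := ts_mem hp
        have k2 := (s1 e he).2
        unfold E2
        apply Nat.le_floor
        push_cast
        calc (p : ℝ) * e ≤ (2 * (X : ℝ) ^ (v + κ)) * (X : ℝ) ^ (1 / 2 - v + κ + 2 * ε₂) :=
              mul_le_mul p3 k2 (Nat.cast_nonneg _) (by positivity)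
          _ = 2 * (X : ℝ) ^ (1 / 2 + 2 * κ + 2 * ε₂) := by
              rw [mul_assoc, ← Real.rpow_add hX0]
              congr 2
              ring
          _ ≤ _ := g4
    · intro m hm1 hm2 hsm
      show WW (E2 κ X) (wX (E2 κ X)
        (fun e => (ell κ v t X (θ X))⁻¹ * x2 κ v κ₁ t X (θ X) a e)) m = Ph (KA ε₂ X) a m
      have hmX : (m : ℝ) < (X : ℝ) ^ v / 2 := by
        have h7 : (m : ℝ) ≤ KA ε₂ X := by exact_mod_cast hm2
        have h8 := mpv_ka (ε₂ := ε₂) X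
        have h9 : (0 : ℝ) < (X : ℝ) ^ ε₂ := by positivity
        linarith
      rw [sc_WW, hX₂ X (by omega) a ha (θ X) t m hsm hm1 hmX, ← mul_assoc,
        inv_mul_cancel₀ (by linarith), one_mul]
  · obtain ⟨e', he'0, he'b, he'ε⟩ : ∃ e' : ℝ, 0 < e' ∧ e' ≤ b / 4 ∧ e' ≤ ε / 3 :=
      ⟨min (b / 4) (ε / 3), by positivity, min_le_left _ _, min_le_right _ _⟩
    obtain ⟨X₁, hX₁⟩ := typ_m (δ := κ₁) h3 (by linarith) he'0
    obtain ⟨X₂, hX₂⟩ := typ_m (δ := v - κ) (by linarith) (by linarith) he'0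
    obtain ⟨X₃, hX₃⟩ := typ_sV (κ := κ) (v := v) (by linarith) (b := e') he'0
      (ε := ε / 3) (by positivity)
    obtain ⟨X₄, hX₄⟩ := tym_lim 0 (ε := e') he'0 4 one_pos
    have hll : Tendsto (fun N : ℕ => Real.log (Real.log (N : ℝ))) atTop atTop :=
      Real.tendsto_log_atTop.comp (Real.tendsto_log_atTop.comp tendsto_natCast_atTop_atTop)
    refine ⟨X₁ + X₂ + X₃ + X₄ + Xe + Xθ + 1, fun N _ hN hPN ι _ f hi hn s hs => ?_⟩
    classical
    obtain ⟨hθ1, hθ2⟩ := hθ N (by omega) hPN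
    obtain ⟨hl1, hl2⟩ := hXe N (by omega) (θ N) hθ1 hθ2
    have hκv : κ / v ≤ 1 := by
      rw [div_le_one (by linarith)]
      linarith
    have k1 := hX₁ N (by omega) f hi hn
    have k2 := hX₂ N (by omega) f hi hn
    have k3 := hX₃ N (by omega) (θ N) hθ1 (hθ2.trans hκv) f hi hn
    have hw4 := hX₄ N (by omega)
    rw [pow_zero, mul_one, one_mul] at hw4
    obtain ⟨w, hw⟩ : ∃ w : ℝ, w = Real.exp (e' * Real.sqrt (Real.log (Real.log N))) := ⟨_, rfl⟩
    rw [← hw] at k1 k2 k3 hw4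
    have hwb : w ^ 4 ≤ Real.exp (b * Real.sqrt (Real.log (Real.log N))) := by
      rw [hw, ← Real.exp_nat_mul]
      apply Real.exp_le_exp.mpr
      have h7 := Real.sqrt_nonneg (Real.log (Real.log (N : ℝ)))
      push_cast
      nlinarith
    obtain ⟨s1, hs1⟩ : ∃ s1 : Finset ι, s1 = Finset.univ.filter
      (fun i => w < |Mr (zz N) (MM κ₁ N) 2 (la (f i))|) := ⟨_, rfl⟩
    obtain ⟨s2, hs2⟩ : ∃ s2 : Finset ι, s2 = Finset.univ.filter
      (fun i => w < |Mr (zz N) (MM (v - κ) N) 2 (la (f i))|) := ⟨_, rfl⟩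
    obtain ⟨s3, hs3⟩ : ∃ s3 : Finset ι, s3 = Finset.univ.filter
      (fun i => w < |∑ p ∈ PB κ v N, θ N p * (la (f i) p / Real.sqrt p)|) := ⟨_, rfl⟩
    have b1 := k1 s1 (fun i hi' => by rw [hs1, Finset.mem_filter] at hi'; exact hi'.2)
    have b2 := k2 s2 (fun i hi' => by rw [hs2, Finset.mem_filter] at hi'; exact hi'.2)
    have b3 := k3 s3 (fun i hi' => by rw [hs3, Finset.mem_filter] at hi'; exact hi'.2)
    have hom : ∀ i, 0 ≤ om (f i) := fun i => tym_om _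
    have hsub : s ⊆ s1 ∪ (s2 ∪ s3) := by
      intro i hi'
      by_contra hno
      rw [Finset.mem_union, Finset.mem_union] at hno
      push Not at hno
      obtain ⟨n1, n2, n3⟩ := hno
      have m1 : |Mr (zz N) (MM κ₁ N) 2 (la (f i))| ≤ w := by
        by_contra h
        push Not at h
        exact n1 (by rw [hs1, Finset.mem_filter]; exact ⟨Finset.mem_univ _, h⟩)
      have m2 : |Mr (zz N) (MM (v - κ) N) 2 (la (f i))| ≤ w := by
        by_contra h
        push Not at h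
        exact n2 (by rw [hs2, Finset.mem_filter]; exact ⟨Finset.mem_univ _, h⟩)
      have m3 : |∑ p ∈ PB κ v N, θ N p * (la (f i) p / Real.sqrt p)| ≤ w := by
        by_contra h
        push Not at h
        exact n3 (by rw [hs3, Finset.mem_filter]; exact ⟨Finset.mem_univ _, h⟩)
      have h7 := (hwb.trans_lt (hs i hi'))
      simp only [abs_mul] at h7
      have hw0 : 0 ≤ w := by linarith
      have h8 : |(ell κ v t N (θ N))⁻¹| ≤ 2 := by
        rw [abs_inv, abs_of_pos (by linarith)]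
        exact inv_le_of_inv_le₀ (by norm_num) (by linarith)
      have h9 : |Mr (zz N) (MM κ₁ N) 2 (la (f i)) -
          t * ((∑ p ∈ PB κ v N, θ N p * (la (f i) p / Real.sqrt p)) *
            Mr (zz N) (MM (v - κ) N) 2 (la (f i)))| ≤ w + w * w := by
        refine (abs_sub _ _).trans ?_
        rw [abs_mul, abs_mul, abs_of_nonneg ht0]
        have h10 : |∑ p ∈ PB κ v N, θ N p * (la (f i) p / Real.sqrt p)| *
            |Mr (zz N) (MM (v - κ) N) 2 (la (f i))| ≤ w * w :=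
          mul_le_mul m3 m2 (abs_nonneg _) hw0
        have h11 : t * (|∑ p ∈ PB κ v N, θ N p * (la (f i) p / Real.sqrt p)| *
            |Mr (zz N) (MM (v - κ) N) 2 (la (f i))|) ≤ 1 * (w * w) :=
          mul_le_mul ht1 h10 (by positivity) (by norm_num)
        linarith
      have h12 : |(ell κ v t N (θ N))⁻¹| * |Mr (zz N) (MM κ₁ N) 2 (la (f i)) -
          t * ((∑ p ∈ PB κ v N, θ N p * (la (f i) p / Real.sqrt p)) *
            Mr (zz N) (MM (v - κ) N) 2 (la (f i)))| ≤ 2 * (w + w * w) :=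
        mul_le_mul h8 h9 (abs_nonneg _) (by norm_num)
      have h13 : 2 * (w + w * w) ≤ w ^ 4 := by
        have h14 : w ≤ w * w := by nlinarith
        have h15 : 4 * (w * w) ≤ w ^ 4 := by
          have : w ^ 4 = w * w * (w * w) := by ring
          rw [this]
          have h16 : 4 ≤ w * w := by nlinarith
          exact mul_le_mul_of_nonneg_right h16 (by positivity)
        linarith
      linarith
    calc ∑ i ∈ s, om (f i) ≤ ∑ i ∈ s1 ∪ (s2 ∪ s3), om (f i) :=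
          Finset.sum_le_sum_of_subset_of_nonneg hsub fun i _ _ => hom i
      _ ≤ ∑ i ∈ s1, om (f i) + ∑ i ∈ s2 ∪ s3, om (f i) := by
          rw [← Finset.sum_union_inter]
          have : 0 ≤ ∑ i ∈ s1 ∩ (s2 ∪ s3), om (f i) := Finset.sum_nonneg fun i _ => hom i
          linarith
      _ ≤ ∑ i ∈ s1, om (f i) + (∑ i ∈ s2, om (f i) + ∑ i ∈ s3, om (f i)) := by
          have h7 : ∑ i ∈ s2 ∪ s3, om (f i) ≤ ∑ i ∈ s2, om (f i) + ∑ i ∈ s3, om (f i) := by
            rw [← Finset.sum_union_inter]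
            have : 0 ≤ ∑ i ∈ s2 ∩ s3, om (f i) := Finset.sum_nonneg fun i _ => hom i
            linarith
          linarith
      _ ≤ ε := by linarith

end Pool.Agent.LSP
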