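import Pool.Agent.Lib_helper68.LSP2.QD
import Pool.Agent.Lib_helper41.LSP25.ArG
import Pool.Agent.Lib_helper68.LSPV.MPV

/-! LSPV: the second moment for every predicate that has windows, for long Hecke polynomials. -/

set_option autoImplicit false

namespace Pool.Agent.LSP

open Pool.Agent.LEV Pool.Agent.LVB Pool.Agent.KSL
open Pool.Agent.FG61 (mu phi cc ff AA Lam)
open Complex MeasureTheory Filter Topology UpperHalfPlane ModularGroup ProbabilityTheory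
open scoped MatrixGroups Modular ENNReal ModularForm ComplexConjugate ContDiff

/-- the choice of the parameters -/
theorem qdv_par {K c A : ℝ} (hK : 1 ≤ K) (hc : 0 < c) (hA : 1000 ≤ A) : ∃ κ₀ : ℝ, 0 < κ₀ ∧
    ∀ κ : ℝ, 0 < κ → κ ≤ κ₀ → A * κ ≤ 1 / 80 ∧ 1000 * κ ≤ 1 / 80 ∧
    Real.exp (-(c * (1 / 80) / κ)) ≤ κ ^ 2 / (K ^ 2 * (1 / 80)) := by
  have h1 : Tendsto (fun x : ℝ => x ^ 2 * Real.exp (-(c * x))) atTop (𝓝 0) := by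
    have h2 := Real.tendsto_pow_mul_exp_neg_atTop_nhds_zero 2
    have h3 : Tendsto (fun x : ℝ => (c * x) ^ 2 * Real.exp (-(c * x))) atTop (𝓝 0) :=
      h2.comp (tendsto_id.const_mul_atTop hc)
    have h4 : (fun x : ℝ => x ^ 2 * Real.exp (-(c * x))) =
        fun x => (1 / c ^ 2) * ((c * x) ^ 2 * Real.exp (-(c * x))) := by
      funext x
      field_simp
    rw [h4, ← mul_zero (1 / c ^ 2)]
    exact h3.const_mul _
  obtain ⟨x₀, hx₀⟩ := Filter.eventually_atTop.mp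
    ((h1.eventually (gt_mem_nhds (show (0 : ℝ) < 1 / 80 / K ^ 2 by
    positivity))).and (eventually_ge_atTop A))
  have hx₀A : A ≤ x₀ := (hx₀ x₀ le_rfl).2
  have hx₀0 : 0 < x₀ := by linarith
  refine ⟨1 / 80 / x₀, by positivity, fun κ hκ hκ' => ?_⟩
  obtain ⟨x, hx⟩ : ∃ x : ℝ, x = 1 / 80 / κ := ⟨_, rfl⟩
  have hx0 : 0 < x := by rw [hx]; positivity
  have hκx : κ = 1 / 80 / x := by
    rw [hx]
    field_simp
  have hx₀x : x₀ ≤ x := by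
    rw [hx, le_div_iff₀ hκ]
    rw [le_div_iff₀ (by linarith)] at hκ'
    linarith
  obtain ⟨hx1, hx2⟩ := hx₀ x hx₀x
  rw [hκx]
  refine ⟨?_, ?_, ?_⟩
  · rw [mul_div_assoc', div_le_iff₀ hx0]
    linarith
  · rw [mul_div_assoc', div_le_iff₀ hx0]
    linarith
  · have h5 : c * (1 / 80) / (1 / 80 / x) = c * x := by field_simp
    rw [h5]
    have h6 : (1 / 80 / x) ^ 2 / (K ^ 2 * (1 / 80)) = (1 / 80 / K ^ 2) / x ^ 2 := by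
      field_simp
    rw [h6, le_div_iff₀ (by positivity)]
    linarith

/-- the second moment at every level, for a predicate that has windows -/
theorem qdataV_gen (hq : M2Q) (hcr : M2C) (hmn : M2M) {Gd : ℝ → ℕ → Prop}
    (hwx : WinEx (1 / 80) Gd) (C₀ C₁ : ℕ) : ∃ κ₀ : ℝ, 0 < κ₀ ∧ κ₀ ≤ 1 / 80000 ∧
    ∀ κ : ℝ, 0 < κ → κ ≤ κ₀ → ∃ q : ℝ, 1 / 2 < q ∧ q ≤ 1 ∧ QDataV q C₀ C₁ (Gd κ) := by
  obtain ⟨v, hv⟩ : ∃ v : ℝ, v = 1 / 80 := ⟨_, rfl⟩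
  have hv0 : 0 < v := by rw [hv]; norm_num
  have hv1 : v ≤ 1 / 80 := hv.le
  obtain ⟨Ca, hCa, c, hc, A, hA, har⟩ := arith2_gen hq hcr (hv ▸ hwx) 1 hv0 hv1
  obtain ⟨Cm, hCm, hm2⟩ := hmn 1 hv0 hv1
  obtain ⟨K, hKa, hKm, hK1⟩ : ∃ K : ℝ, Ca ≤ K ∧ Cm ≤ K ∧ 1 ≤ K :=
    ⟨max Ca Cm, le_max_left _ _, le_max_right _ _, hCa.trans (le_max_left _ _)⟩
  obtain ⟨κ₀, hκ₀0, hκ₀⟩ := qdv_par hK1 hc hA
  refine ⟨min κ₀ (1 / 80000), by positivity, min_le_right _ _, fun κ hκ0 hκκ₀ => ?_⟩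
  obtain ⟨hAκ, hκ1, hexp⟩ := hκ₀ κ hκ0 (hκκ₀.trans (min_le_left _ _))
  rw [← hv] at hAκ hκ1 hexp
  have hκ2 : κ ≤ 1 / 80000 := by linarith
  obtain ⟨t, ht⟩ : ∃ t : ℝ, t = κ / K := ⟨_, rfl⟩
  have hK0 : 0 < K := by linarith
  have ht0 : 0 < t := by rw [ht]; positivity
  have htκ : t ≤ κ := by
    rw [ht]
    exact div_le_self hκ0.le hK1
  have htK : K * t = κ := by rw [ht]; field_simp
  have ht1 : t ≤ 1 := by linarith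
  obtain ⟨γ, hγ⟩ : ∃ γ : ℝ, γ = t * κ * (κ / (K * v)) := ⟨_, rfl⟩
  have hγ0 : 0 < γ := by rw [hγ]; positivity
  have hκv : κ / v ≤ 1 / 1000 := by
    rw [div_le_iff₀ hv0]
    linarith
  have hκKv : κ / (K * v) ≤ 1 := by
    rw [div_le_one (by positivity)]
    nlinarith
  have hγ1 : γ ≤ 1 / 4 := by
    rw [hγ]
    have h2 : t * κ ≤ 1 / 4 := by nlinarith
    calc t * κ * (κ / (K * v)) ≤ 1 / 4 * 1 := mul_le_mul h2 hκKv (by positivity) (by norm_num)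
      _ = 1 / 4 := by norm_num
  -- the error of the characters
  have hηγ : Ca * t * Real.exp (-(c * v / κ)) ≤ γ := by
    calc Ca * t * Real.exp (-(c * v / κ)) ≤ K * t * (κ ^ 2 / (K ^ 2 * v)) := by
          have h3 : 0 ≤ Ca * t := by positivity
          exact mul_le_mul (mul_le_mul_of_nonneg_right hKa ht0.le) hexp (Real.exp_pos _).le
            (by positivity)
      _ = γ := by
          rw [hγ]
          field_simp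
  -- the kernel
  have hpi : 3 < Real.pi := Real.pi_gt_three
  obtain ⟨e', he'0, he'K, he'1⟩ : ∃ e' : ℝ, 0 < e' ∧ e' ≤ γ / K ∧ e' ≤ 1 / 2 :=
    ⟨min (γ / K) (1 / 2), by positivity, min_le_left _ _, min_le_right _ _⟩
  obtain ⟨κ₁, hκ₁0, hκ₁K, hκ₁κ⟩ : ∃ κ₁ : ℝ, 0 < κ₁ ∧ κ₁ ≤ γ / K ∧ κ₁ ≤ κ :=
    ⟨min (γ / K) κ, by positivity, min_le_left _ _, min_le_right _ _⟩
  obtain ⟨T, ρ, g, G, hρ, hg, hd, hI⟩ := kernel_existsL_pr he'0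
  have hI1 : ∫ u in Set.Ioi (0 : ℝ), g u ≤ 1 := by
    have h2 : 1 / Real.pi ≤ 1 / 3 := one_div_le_one_div_of_le (by norm_num) hpi.le
    linarith
  obtain ⟨B₀, hB₀⟩ := exists_nat_ge (1 + T ^ 2)
  have hq1 : 1 / 2 < 2 / (4 - 4 * γ) := by
    rw [div_lt_div_iff₀ (by norm_num) (by linarith)]
    linarith
  have hq2 : 2 / (4 - 4 * γ) ≤ 1 := by
    rw [div_le_one (by linarith)]
    linarith
  refine ⟨2 / (4 - 4 * γ), hq1, hq2, fun e C he hC => ?_⟩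
  -- small errors
  obtain ⟨σ, hσ0, hσe, hσ1⟩ : ∃ σ : ℝ, 0 < σ ∧ σ ≤ e / 16 ∧ σ ≤ 1 :=
    ⟨min (e / 16) 1, by positivity, min_le_left _ _, min_le_right _ _⟩
  obtain ⟨δ, hδ0, hδ⟩ : ∃ δ : ℝ, 0 < δ ∧ δ * (C + 1) = e / 16 :=
    ⟨e / 16 / (C + 1), by positivity, by field_simp⟩
  obtain ⟨ε₁, hε₁, har1⟩ := har κ κ₁ hκ0 hAκ hκ₁0 hκ₁κ hρ hg hd hI1 hB₀ (C₀ + 1) C₁ δ hδ0
  obtain ⟨ε₁', hε₁', hm21⟩ := hm2 hρ hg hd hI1 κ κ₁ hκ0 hκ1 hκ₁0 hκ₁κ δ hδ0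
  obtain ⟨ε₂, hε₂0, hε₂1, hε₂2, hε₂3⟩ : ∃ ε₂ : ℝ, 0 < ε₂ ∧ ε₂ ≤ ε₁ ∧ ε₂ ≤ ε₁' ∧ ε₂ ≤ κ₁ / 1000 :=
    ⟨min (min ε₁ ε₁') (κ₁ / 1000), by positivity, (min_le_left _ _).trans (min_le_left _ _),
      (min_le_left _ _).trans (min_le_right _ _), min_le_right _ _⟩
  obtain ⟨X₁, hX₁⟩ := har1 ε₂ hε₂0 hε₂1
  obtain ⟨X₂, hX₂⟩ := hm21 ε₂ hε₂0 hε₂2
  have hch : ∀ X : ℕ, ∃ θ : ℕ → ℝ, X₁ ≤ X → Gd κ X →
      (∀ p ∈ PB κ v X, 0 ≤ θ p ∧ θ p ≤ 1) ∧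
      κ / (Ca * v) ≤ ∑ p ∈ PB κ v X, θ p / p ∧ ∑ p ∈ PB κ v X, θ p / p ≤ κ / v ∧
      ∀ a : ℕ → ℝ, Sht (zz X) (KA ε₂ X) a → cn (zz X) (KA ε₂ X) a ≤ 1 →
      (∀ k : ℕ, |a k| * Real.sqrt k ≤ Real.log X ^ (C₀ + 1) * tau k ^ C₁) →
      ∀ N : ℕ, N.Prime → X ≤ 2 * N → N ≤ 4 * X → ∀ t : ℝ, 0 ≤ t → t ≤ 1 →
        OD ρ B₀ (E2 κ X) (x2 κ v κ₁ t X θ a) N ≤ Ca * t * Real.exp (-(c * v / κ)) + δ := by
    intro X
    by_cases hX : X₁ ≤ X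
    · by_cases hgood : Gd κ X
      · obtain ⟨θ, hθ⟩ := hX₁ X hX hgood
        exact ⟨θ, fun _ _ => hθ⟩
      · exact ⟨0, fun _ h => absurd h hgood⟩
    · exact ⟨0, fun h => absurd h hX⟩
  choose θ hθ using hch
  have htv : t * (κ / v) ≤ 1 / 2 := by
    have h2 : 0 ≤ κ / v := by positivity
    calc t * (κ / v) ≤ 1 * (1 / 1000) := mul_le_mul ht1 hκv h2 (by norm_num)
      _ ≤ 1 / 2 := by norm_num
  have hmol := molv_x2 (P := fun X => Gd κ X) hκ0 hκ1 hv1 hκ₁0 hκ₁κ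
    hε₂0 hε₂3 ht0.le ht1 htv C₀ C₁ θ X₁ (fun X hX hP => ⟨(hθ X hX hP).1, (hθ X hX hP).2.2.1⟩)
  obtain ⟨X₃, hX₃⟩ := mp_ell hκ0 hv1 (by linarith) ht0.le htv
  obtain ⟨X₄, hX₄⟩ := sc_sht C₀ C₁ hε₂0 (Λ := 1 / Real.sqrt σ) (by
    rw [le_div_iff₀ (Real.sqrt_pos.mpr hσ0), one_mul]
    exact Real.sqrt_le_one.mpr hσ1)
  refine ⟨T, ρ, B₀, 4 - 4 * γ, ε₂, _, _, _, hρ, hB₀, by linarith, ?_, hε₂0, by linarith, hmol,
    X₁ + X₂ + X₃ + X₄ + 1, fun X hX hXp hgood a ha hpt hcnC => ?_⟩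
  · have h2 : 2 / (2 / (4 - 4 * γ)) = 4 - 4 * γ := by
      have : 4 - 4 * γ ≠ 0 := by linarith
      field_simp
    rw [h2]
    linarith
  obtain ⟨hθ1, hθ2, hθ3, hθ4⟩ := hθ X (by omega) hgood
  obtain ⟨hl1, hl2⟩ := hX₃ X (by omega) (θ X) hθ1 hθ3
  obtain ⟨l, hl⟩ : ∃ l : ℝ, l = ell κ v t X (θ X) := ⟨_, rfl⟩
  rw [← hl] at hl1 hl2
  obtain ⟨s, hs⟩ : ∃ s : ℝ, s = cn (zz X) (KA ε₂ X) a := ⟨_, rfl⟩
  have hs0 : 0 ≤ s := by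
    rw [hs]
    exact tsum_nonneg fun m => by split_ifs <;> positivity
  rw [← hs] at hcnC
  obtain ⟨m, hm⟩ : ∃ m : ℝ, m = max s σ := ⟨_, rfl⟩
  have hms : s ≤ m := by rw [hm]; exact le_max_left _ _
  have hmσ : σ ≤ m := by rw [hm]; exact le_max_right _ _
  have hm0 : 0 < m := by linarith
  have hm1 : m ≤ s + σ := by
    rw [hm]
    exact max_le (by linarith) (by linarith)
  have hmC : m ≤ C + 1 := by linarith
  obtain ⟨μ, hμ⟩ : ∃ μ : ℝ, μ = 1 / Real.sqrt m := ⟨_, rfl⟩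
  have hsm : 0 < Real.sqrt m := Real.sqrt_pos.mpr hm0
  have hμ0 : 0 < μ := by rw [hμ]; positivity
  have hμ2 : μ ^ 2 = 1 / m := by
    rw [hμ, div_pow, Real.sq_sqrt hm0.le, one_pow]
  have hμ1 : μ ≤ 1 / Real.sqrt σ := by
    rw [hμ]
    exact one_div_le_one_div_of_le (Real.sqrt_pos.mpr hσ0) (Real.sqrt_le_sqrt hmσ)
  obtain ⟨hsht, hptw⟩ := hX₄ X (by omega) a ha hpt μ hμ0.le hμ1
  have hcn' : cn (zz X) (KA ε₂ X) (fun k => μ * a k) = s / m := by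
    rw [sc_cn, ← hs, hμ2]
    ring
  have hcn1 : cn (zz X) (KA ε₂ X) (fun k => μ * a k) ≤ 1 := by
    rw [hcn', div_le_one hm0]
    exact hms
  -- the two bounds for the scaled vector
  have hOD := hθ4 (fun k => μ * a k) hsht hcn1 hptw X hXp (by omega) (by omega) t ht0.le ht1
  have hsh := hX₂ X (by omega) (fun k => μ * a k) hsht hcn1 X (by omega) (by omega) (θ X) hθ1 t
    ht0.le ht1
  rw [sc_x2, sc_OD] at hOD
  rw [sc_x2, sc_sh, hcn', ← hl] at hsh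
  rw [hμ2] at hOD hsh
  obtain ⟨S, hS⟩ : ∃ S : ℝ, S = ∑ p ∈ PB κ v X, θ X p / p := ⟨_, rfl⟩
  rw [← hS] at hsh hθ2
  have hcoef : 4 * l ^ 2 - 8 * t * κ * S +
      Cm * (κ₁ + ((∫ u in Set.Ioi (0 : ℝ), g u) - 1 / Real.pi)) + Cm * t ^ 2 * S ≤
      4 * l ^ 2 - 5 * γ := by
    have h2 : κ / (K * v) ≤ S := by
      refine le_trans ?_ hθ2
      apply div_le_div_of_nonneg_left hκ0.le (by positivity)
      exact mul_le_mul_of_nonneg_right hKa hv0.le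
    have hS0 : 0 ≤ S := le_trans (by positivity) h2
    have h3 : Cm * t ^ 2 * S ≤ t * κ * S := by
      have h4 : Cm * t ^ 2 ≤ t * κ := by
        calc Cm * t ^ 2 ≤ K * t ^ 2 := mul_le_mul_of_nonneg_right hKm (sq_nonneg t)
          _ = t * (K * t) := by ring
          _ = t * κ := by rw [htK]
      exact mul_le_mul_of_nonneg_right h4 hS0
    have h5 : Cm * (κ₁ + ((∫ u in Set.Ioi (0 : ℝ), g u) - 1 / Real.pi)) ≤ 2 * γ := by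
      have h6 : κ₁ + ((∫ u in Set.Ioi (0 : ℝ), g u) - 1 / Real.pi) ≤ 2 * (γ / K) := by linarith
      calc Cm * (κ₁ + ((∫ u in Set.Ioi (0 : ℝ), g u) - 1 / Real.pi)) ≤ Cm * (2 * (γ / K)) :=
            mul_le_mul_of_nonneg_left h6 (by linarith)
        _ ≤ K * (2 * (γ / K)) := mul_le_mul_of_nonneg_right hKm (by positivity)
        _ = 2 * γ := by field_simp
    have h7 : γ ≤ t * κ * S := by
      rw [hγ]
      exact mul_le_mul_of_nonneg_left h2 (by positivity)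
    linarith
  -- unscaled
  have hOD' : OD ρ B₀ (E2 κ X) (x2 κ v κ₁ t X (θ X) a) X ≤ m * (γ + δ) := by
    have h2 : 1 / m * OD ρ B₀ (E2 κ X) (x2 κ v κ₁ t X (θ X) a) X ≤ γ + δ := by linarith
    rw [div_mul_eq_mul_div, one_mul, div_le_iff₀ hm0] at h2
    linarith
  have hsh' : sh ρ T (E2 κ X) (x2 κ v κ₁ t X (θ X) a) X ≤ (4 * l ^ 2 - 5 * γ) * s + m * δ := by
    have h2 : 1 / m * sh ρ T (E2 κ X) (x2 κ v κ₁ t X (θ X) a) X ≤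
        (4 * l ^ 2 - 5 * γ) * (s / m) + δ := by
      refine hsh.trans ?_
      have := mul_le_mul_of_nonneg_right hcoef (show 0 ≤ s / m by positivity)
      linarith
    rw [div_mul_eq_mul_div, one_mul, div_le_iff₀ hm0] at h2
    calc _ ≤ ((4 * l ^ 2 - 5 * γ) * (s / m) + δ) * m := h2
      _ = _ := by field_simp
  have hQ : QN ρ T B₀ (E2 κ X) (x2 κ v κ₁ t X (θ X) a) X ≤ (4 * l ^ 2 - 4 * γ) * s + e / 4 := by
    unfold QN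
    have h2 : m * γ ≤ (s + σ) * γ := mul_le_mul_of_nonneg_right hm1 hγ0.le
    have h3 : σ * γ ≤ e / 16 * 1 := mul_le_mul hσe (by linarith) hγ0.le (by positivity)
    have h4 : m * δ ≤ e / 16 := by
      rw [← hδ, mul_comm δ]
      exact mul_le_mul_of_nonneg_right hmC hδ0.le
    calc sh ρ T (E2 κ X) (x2 κ v κ₁ t X (θ X) a) X + OD ρ B₀ (E2 κ X) (x2 κ v κ₁ t X (θ X) a) X
        ≤ ((4 * l ^ 2 - 5 * γ) * s + m * δ) + m * (γ + δ) := add_le_add hsh' hOD'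
      _ = (4 * l ^ 2 - 5 * γ) * s + m * γ + 2 * (m * δ) := by ring
      _ ≤ (4 * l ^ 2 - 5 * γ) * s + (s + σ) * γ + 2 * (e / 16) := by linarith
      _ = (4 * l ^ 2 - 4 * γ) * s + σ * γ + 2 * (e / 16) := by ring
      _ ≤ _ := by linarith
  show QN ρ T B₀ (E2 κ X) (fun e => (ell κ v t X (θ X))⁻¹ * x2 κ v κ₁ t X (θ X) a e) X ≤
    (4 - 4 * γ) * cn (zz X) (KA ε₂ X) a + e
  rw [sc_QN, ← hl, ← hs]
  have hl0 : 0 < l := by linarith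
  have hi1 : 1 ≤ l⁻¹ ^ 2 := one_le_pow₀ ((one_le_inv₀ hl0).mpr hl2)
  have hi2 : l⁻¹ ^ 2 ≤ 4 := by
    have h2 : l⁻¹ ≤ 2 := inv_le_of_inv_le₀ (by norm_num) (by linarith)
    calc l⁻¹ ^ 2 ≤ 2 ^ 2 := pow_le_pow_left₀ (by positivity) h2 2
      _ = 4 := by norm_num
  have hi3 : l⁻¹ ^ 2 * l ^ 2 = 1 := by
    rw [← mul_pow, inv_mul_cancel₀ hl0.ne', one_pow]
  calc l⁻¹ ^ 2 * QN ρ T B₀ (E2 κ X) (x2 κ v κ₁ t X (θ X) a) X
      ≤ l⁻¹ ^ 2 * ((4 * l ^ 2 - 4 * γ) * s + e / 4) :=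
        mul_le_mul_of_nonneg_left hQ (by positivity)
    _ = 4 * s * (l⁻¹ ^ 2 * l ^ 2) - 4 * γ * s * l⁻¹ ^ 2 + l⁻¹ ^ 2 * (e / 4) := by ring
    _ ≤ 4 * s * 1 - 4 * γ * s * 1 + 4 * (e / 4) := by
        rw [hi3]
        have h2 : 4 * γ * s * 1 ≤ 4 * γ * s * l⁻¹ ^ 2 :=
          mul_le_mul_of_nonneg_left hi1 (by positivity)
        have h3 : l⁻¹ ^ 2 * (e / 4) ≤ 4 * (e / 4) := mul_le_mul_of_nonneg_right hi2 (by positivity)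
        linarith
    _ = (4 - 4 * γ) * s + e := by ring

end Pool.Agent.LSP
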