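import Pool.Agent.Lib_helper68.LSPV.GLV
import Pool.Agent.Lib_helper68.LSPV.QDV
import Pool.Agent.Lib_helper68.LSPF.NG
import Pool.Agent.Lib_helper98.HK.FinC
import Pool.Agent.Lib_helper46.LSP2.MQ4
import Pool.Agent.Lib_helper31.LSPM2.FID
import Pool.Agent.Lib_helper41.LSP25.WINF

/-! LSPV: the distribution form at every prime level without a strongly exceptional zero. -/

set_option autoImplicit false

namespace Pool.Agent.LSP

open Pool.Agent.LEV Pool.Agent.LVB Pool.Agent.KSL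
open Pool.Agent.FG61 (mu phi cc ff AA Lam)
open Complex MeasureTheory Filter Topology UpperHalfPlane ModularGroup ProbabilityTheory
open scoped MatrixGroups Modular ENNReal ModularForm ComplexConjugate ContDiff

/-- the property of a smaller range -/
theorem free_mono {w : ℝ} {D D' : ℕ} (h : D' ≤ D) (hf : GA.Free w D) : GA.Free w D' := by
  intro q hq χ hχ h2 β hβ
  rw [Finset.mem_Icc] at hq
  exact hf q (Finset.mem_Icc.mpr ⟨hq.1, hq.2.trans h⟩) χ hχ h2 β hβ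

/-- the distribution form, for an abstract predicate -/
theorem dist_abs {q : ℝ} (hq1 : 1 / 2 ≤ q) (hq2 : q ≤ 1) {P : ℕ → Prop} (hQD : QDataV q 12 0 P)
    (V ε : ℝ) (hε : 0 < ε) : ∃ N₀ : ℕ, ∀ (N : ℕ) [Fact N.Prime], N₀ ≤ N → P N →
      (N : ℝ) / 24 * (q * (gaussianReal 0 1).real (Set.Ici V) - ε) ≤
        ({f : S2 N | (IsNew f ∧ co f N = 1) ∧ Real.exp (-Real.log (Real.log N) / 2 +
          V * Real.sqrt (Real.log (Real.log N))) ≤ ‖Lh f‖}.ncard : ℝ) := by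
  obtain ⟨g, hg⟩ : ∃ g : ℝ, g = (gaussianReal 0 1).real (Set.Ici V) := ⟨_, rfl⟩
  have hg0 : 0 ≤ g := by rw [hg]; exact measureReal_nonneg
  have hg1 : g ≤ 1 := by
    rw [hg]
    exact measureReal_le_one
  have hqg0 : 0 ≤ q * g := mul_nonneg (by linarith) hg0
  have hqg1 : q * g ≤ 1 := by
    calc q * g ≤ 1 * 1 := mul_le_mul hq2 hg1 hg0 (by norm_num)
      _ = 1 := by norm_num
  obtain ⟨A, w, ε₁, N₀, hA, hw, hε₁, hnat⟩ := nat_gen (q := q * g) hqg0 hqg1 hε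
  obtain ⟨N₁, hN₁⟩ := gl_absV hq1 hq2 hQD A w hA hw V ε₁ hε₁
  refine ⟨N₀ + N₁, fun N _ hN hP => ?_⟩
  rw [← hg]
  refine hnat N (by omega) (fun f => Real.exp (-Real.log (Real.log N) / 2 +
    V * Real.sqrt (Real.log (Real.log N))) ≤ ‖Lh f‖) (fun f hf => ?_)
  obtain ⟨t, ht1, ht2⟩ := hN₁ N (by omega) hP f hf
  refine ⟨t, ht1, ?_⟩
  rw [← hg] at ht2
  have h1 : 1 / 2 * (q * g * ∑ a ∈ A, w a) = 1 / 2 * (q * ((∑ a ∈ A, w a) * g)) := by ring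
  rw [h1]
  exact ht2

/-- **the distribution form** at every prime level without a strongly exceptional zero -/
theorem dist_free {lam κ : ℝ} (hlam : 0 < lam) (hκ : 0 < κ) : ∃ c : ℝ, 0 < c ∧ c ≤ 1 / 2 ∧
    ∀ V ε : ℝ, 0 < ε → ∃ N₀ : ℕ, ∀ (N : ℕ) [Fact N.Prime], N₀ ≤ N →
      GA.Free (lam / Real.log N) ⌊(N : ℝ) ^ κ⌋₊ →
      (N : ℝ) / 24 * ((1 / 2 + c) * (gaussianReal 0 1).real (Set.Ici V) - ε) ≤
        ({f : S2 N | (IsNew f ∧ co f N = 1) ∧ Real.exp (-Real.log (Real.log N) / 2 +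
          V * Real.sqrt (Real.log (Real.log N))) ≤ ‖Lh f‖}.ncard : ℝ) := by
  obtain ⟨κ₀, hκ₀0, -, hκ₀⟩ := qdataV_gen (@m2_quad) (@m2_cross) (@m2_main_pr)
    (win_free hlam (by norm_num : (0 : ℝ) < 1 / 80) (by norm_num)) 12 0
  obtain ⟨κ', hκ'0, hκ'1, hκ'2⟩ : ∃ κ' : ℝ, 0 < κ' ∧ κ' ≤ κ₀ ∧ 1000 * κ' ≤ κ :=
    ⟨min κ₀ (κ / 1000), by positivity, min_le_left _ _, by
      have := min_le_right κ₀ (κ / 1000)
      linarith⟩
  obtain ⟨q, hq1, hq2, hQD⟩ := hκ₀ κ' hκ'0 hκ'1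
  refine ⟨q - 1 / 2, by linarith, by linarith, fun V ε hε => ?_⟩
  obtain ⟨N₀, hN₀⟩ := dist_abs hq1.le hq2 hQD V ε hε
  refine ⟨N₀ + 1, fun N _ hN hfree => ?_⟩
  have h1 := hN₀ N (by omega) (free_mono (Nat.floor_le_floor
    (Real.rpow_le_rpow_of_exponent_le (by exact_mod_cast (by omega : 1 ≤ N)) hκ'2)) hfree)
  have h2 : 1 / 2 + (q - 1 / 2) = q := by ring
  rw [h2]
  exact h1

end Pool.Agent.LSP
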