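import Pool.Agent.Lib_helper68.LSP2.MP

/-! LSPV: the mollifier operators at the level itself, for long Hecke polynomials. -/

set_option autoImplicit false

namespace Pool.Agent.LSP

open Pool.Agent.LEV Pool.Agent.LVB Pool.Agent.KSL
open Pool.Agent.FG61 (mu phi cc ff AA Lam)
open Complex MeasureTheory Filter Topology UpperHalfPlane ModularGroup ProbabilityTheory
open scoped MatrixGroups Modular ENNReal ModularForm ComplexConjugate ContDiff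

/-- a mollifier operator at the level `N` -/
structure MolV (C₀ C₁ : ℕ) (ε₂ : ℝ) (P : ℕ → Prop) (E : ℕ → ℕ) (x : ℕ → (ℕ → ℝ) → ℕ → ℝ)
    (R : ℕ → (ℕ → ℝ) → ℝ) : Prop where
  size : ∀ c : ℝ, 0 < c → ∃ N₀ : ℕ, ∀ N : ℕ, N₀ ≤ N →
    1 ≤ E N ∧ (E N : ℝ) * (KA ε₂ N : ℝ) ^ 2 ≤ c * N
  coef : ∃ N₀ : ℕ, ∀ N : ℕ, N₀ ≤ N → P N → ∀ a : ℕ → ℝ,
    Sht (zz N) (KA ε₂ N) a → (∀ k : ℕ, |a k| * Real.sqrt k ≤ Real.log N ^ C₀ * tau k ^ C₁) →
    (∀ e, x N a e ≠ 0 → 1 ≤ e ∧ e ≤ E N) ∧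
    ∑ e ∈ Finset.Icc 1 (E N), x N a e * sg1 e / e = 0 ∧
    (∀ y : ℕ → ℝ, MX (E N) (x N a) y =
      (∑ k ∈ Finset.Icc 1 (KA ε₂ N), a k * Um k y) * R N y) ∧
    ∀ m : ℕ, 1 ≤ m → m ≤ KA ε₂ N → smooth (zz N) m →
      WW (E N) (wX (E N) (x N a)) m = Ph (KA ε₂ N) a m
  typ : ∀ b : ℝ, 0 < b → ∀ ε : ℝ, 0 < ε → ∃ N₀ : ℕ, ∀ (N : ℕ) [Fact N.Prime], N₀ ≤ N → P N →
    ∀ {ι : Type} [Fintype ι] (f : ι → S2 N), Function.Injective f → (∀ i, IsNew (f i)) →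
    ∀ t : Finset ι, (∀ i ∈ t, Real.exp (b * Real.sqrt (Real.log (Real.log N))) <
      |R N (la (f i))|) → ∑ i ∈ t, om (f i) ≤ ε

/-- at every prime level `N`, `P N`, there is a mollifier for which the second moment is at most
`2 / q` times the norm of the smooth coefficients -/
def QDataV (q : ℝ) (C₀ C₁ : ℕ) (P : ℕ → Prop) : Prop :=
  ∀ e C : ℝ, 0 < e → 0 < C → ∃ (T : ℝ) (ρ : ℝ → ℝ) (B₀ : ℕ) (b ε₂ : ℝ) (E : ℕ → ℕ)
    (x : ℕ → (ℕ → ℝ) → ℕ → ℝ) (R : ℕ → (ℕ → ℝ) → ℝ),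
    KerL T ρ ∧ 1 + T ^ 2 ≤ (B₀ : ℝ) ∧ 0 ≤ b ∧ b ≤ 2 / q + e ∧ 0 < ε₂ ∧ ε₂ ≤ 1 / 8 ∧
    MolV C₀ C₁ ε₂ P E x R ∧
    ∃ N₀ : ℕ, ∀ N : ℕ, N₀ ≤ N → N.Prime → P N → ∀ a : ℕ → ℝ,
      Sht (zz N) (KA ε₂ N) a → (∀ k : ℕ, |a k| * Real.sqrt k ≤ Real.log N ^ C₀ * tau k ^ C₁) →
      cn (zz N) (KA ε₂ N) a ≤ C →
        QN ρ T B₀ (E N) (x N a) N ≤ b * cn (zz N) (KA ε₂ N) a + e

/-- typical size of the sum over the primes of the band -/
theorem typ_sV {κ v : ℝ} (hv : v + κ < 1) {b : ℝ} (hb : 0 < b) {ε : ℝ} (hε : 0 < ε) :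
    ∃ N₀ : ℕ, ∀ (N : ℕ) [Fact N.Prime], N₀ ≤ N → ∀ θ : ℕ → ℝ,
    (∀ p ∈ PB κ v N, 0 ≤ θ p ∧ θ p ≤ 1) → ∑ p ∈ PB κ v N, θ p / p ≤ 1 →
    ∀ {ι : Type} [Fintype ι] (f : ι → S2 N), Function.Injective f → (∀ i, IsNew (f i)) →
    ∀ t : Finset ι, (∀ i ∈ t, Real.exp (b * Real.sqrt (Real.log (Real.log N))) <
      |∑ p ∈ PB κ v N, θ p * (la (f i) p / Real.sqrt p)|) → ∑ i ∈ t, om (f i) ≤ ε := by
  classical
  obtain ⟨X₁, hX₁⟩ := fia_grow (a := v + κ) (c := (1 / 100) ^ 2 / 8) hv (by positivity)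
  obtain ⟨X₂, hX₂⟩ := tym_lim 0 (ε := 2 * b) (by positivity) 2 hε
  refine ⟨X₁ + X₂ + 3, fun N _ hN θ hθ hS ι _ f hi hn t ht => ?_⟩
  obtain ⟨X, hX⟩ : ∃ X : ℕ, X = N := ⟨_, rfl⟩
  have hX1 : (1 : ℝ) ≤ N := by exact_mod_cast (by omega : 1 ≤ N)
  have hN0 : (0 : ℝ) < N := by linarith
  obtain ⟨Q, hQ⟩ : ∃ Q : ℕ, Q = ⌊2 * (N : ℝ) ^ (v + κ)⌋₊ + 1 := ⟨_, rfl⟩
  have hQ1 : 1 ≤ Q := by omega
  have hgr := hX₁ N (by omega)
  have hf : (⌊2 * (N : ℝ) ^ (v + κ)⌋₊ : ℝ) ≤ 2 * (N : ℝ) ^ (v + κ) := Nat.floor_le (by positivity)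
  by_cases hne : (PB κ v N).Nonempty
  swap
  · rw [Finset.not_nonempty_iff_eq_empty] at hne
    have h1 : t = ∅ := by
      rw [Finset.eq_empty_iff_forall_notMem]
      intro i hi'
      have h2 := ht i hi'
      rw [hne, Finset.sum_empty, abs_zero] at h2
      have h3 := Real.exp_pos (b * Real.sqrt (Real.log (Real.log N)))
      linarith
    rw [h1, Finset.sum_empty]
    exact hε.le
  obtain ⟨p₀, hp₀⟩ := hne
  have h2X : 1 ≤ ⌊2 * (N : ℝ) ^ (v + κ)⌋₊ := by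
    have := Finset.mem_Icc.mp (ts_mem hp₀).2.2.2
    omega
  have hQN : (Q : ℝ) ≤ (1 / 100) ^ 2 * N := by
    have h3 : (1 : ℝ) ≤ ⌊2 * (N : ℝ) ^ (v + κ)⌋₊ := by exact_mod_cast h2X
    rw [hQ]
    push_cast
    linarith
  have hQlt : Q < N := by
    have h3 : (Q : ℝ) < N := by linarith
    exact_mod_cast h3
  have hPr : ∀ p ∈ Pr N, p.Prime ∧ p < N := by
    intro p hp
    unfold Pr at hp
    rw [Finset.mem_filter, Finset.mem_range] at hp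
    exact ⟨hp.2, hp.1⟩
  obtain ⟨P, hP⟩ := st_exists (Pr N) (fun p hp => (hPr p hp).1)
  obtain ⟨c, hc⟩ : ∃ c : ℕ → ℝ, c = fun m => if m ∈ PB κ v N then θ m / Real.sqrt m else 0 :=
    ⟨_, rfl⟩
  have hcs : ∀ m, c m ≠ 0 → 1 ≤ m ∧ m ≤ Q ∧ m.primeFactors ⊆ Pr N := by
    intro m hm
    have hmem : m ∈ PB κ v N := by
      by_contra h
      exact hm (by rw [hc]; simp only [if_neg h])
    obtain ⟨h1, -, -, h2⟩ := ts_mem hmem
    rw [Finset.mem_Icc] at h2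
    refine ⟨h2.1, by omega, ?_⟩
    rw [h1.primeFactors, Finset.singleton_subset_iff]
    unfold Pr
    rw [Finset.mem_filter, Finset.mem_range]
    exact ⟨by omega, h1⟩
  have hG : ∀ x : ℕ → ℝ, ∑ p ∈ PB κ v N, θ p * (x p / Real.sqrt p) =
      ∑ m ∈ Finset.Icc 1 Q, c m * Um m x := by
    intro x
    have hsub : PB κ v N ⊆ Finset.Icc 1 Q := by
      intro p hp
      have h2 := Finset.mem_Icc.mp (ts_mem hp).2.2.2
      rw [Finset.mem_Icc]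
      omega
    rw [← Finset.sum_subset hsub]
    · refine Finset.sum_congr rfl fun p hp => ?_
      rw [hc]
      simp only [if_pos hp]
      rw [ts_um (ts_mem hp).1]
      ring
    · intro m _ hm
      rw [hc]
      simp only [if_neg hm, zero_mul]
  have hHP : HPoly (Pr N) Q (fun x => ∑ p ∈ PB κ v N, θ p * (x p / Real.sqrt p)) :=
    ⟨c, hcs, fun x => hG x⟩
  have htr := transfer f hi hn (ν := 1 / 100) (by norm_num) (by norm_num) hQ1 hQN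
    (I := Pr N) hPr hP hHP 0
  simp only [zero_mul, add_zero, ne_eq, OfNat.ofNat_ne_zero, not_false_eq_true, zero_pow] at htr
  have hsq : ∫ x, (∑ p ∈ PB κ v N, θ p * (x p / Real.sqrt p)) ^ 2 ∂P ≤ 1 := by
    have h2 : ∫ x, (∑ p ∈ PB κ v N, θ p * (x p / Real.sqrt p)) ^ 2 ∂P =
        ∑ m ∈ Finset.Icc 1 Q, c m ^ 2 := by
      rw [← st_sq (fun p hp => (hPr p hp).1) hP hcs]
      refine integral_congr_ae (Eventually.of_forall fun x => ?_)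
      show (∑ p ∈ PB κ v N, θ p * (x p / Real.sqrt p)) ^ 2 = (∑ m ∈ Finset.Icc 1 Q, c m * Um m x) ^ 2
      rw [hG]
    rw [h2]
    have h3 : ∑ m ∈ Finset.Icc 1 Q, c m ^ 2 = ∑ p ∈ PB κ v N, c p ^ 2 := by
      symm
      apply Finset.sum_subset
      · intro p hp
        have h2 := Finset.mem_Icc.mp (ts_mem hp).2.2.2
        rw [Finset.mem_Icc]
        omega
      · intro m _ hm
        rw [hc]
        simp only [if_neg hm]
        norm_num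
    rw [h3]
    refine le_trans (Finset.sum_le_sum fun p hp => ?_) hS
    rw [hc]
    simp only [if_pos hp]
    obtain ⟨h4, h5⟩ := hθ p hp
    rw [div_pow, Real.sq_sqrt (Nat.cast_nonneg p)]
    apply div_le_div_of_nonneg_right _ (Nat.cast_nonneg p)
    nlinarith
  have h6 : ∑ i, om (f i) * (∑ p ∈ PB κ v N, θ p * (la (f i) p / Real.sqrt p)) ^ 2 ≤ 2 := by
    refine htr.trans ?_
    have h7 : (0 : ℝ) ≤ ∫ x, (∑ p ∈ PB κ v N, θ p * (x p / Real.sqrt p)) ^ 2 ∂P :=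
      integral_nonneg fun x => sq_nonneg _
    calc Real.exp (8 * Real.pi * (1 / 100)) *
          ∫ x, (∑ p ∈ PB κ v N, θ p * (x p / Real.sqrt p)) ^ 2 ∂P ≤ 2 * 1 :=
          mul_le_mul tym_exp hsq h7 (by norm_num)
      _ = 2 := by norm_num
  have hlim := hX₂ N (by omega)
  rw [pow_zero, mul_one] at hlim
  have hlogb := Real.exp_pos (2 * b * Real.sqrt (Real.log (Real.log N)))
  have h7 := HAR_cheb (fun i => om (f i))
    (fun i => (∑ p ∈ PB κ v N, θ p * (la (f i) p / Real.sqrt p)) ^ 2)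
    (fun i => tym_om _) (fun i => sq_nonneg _)
    (t := Real.exp (2 * b * Real.sqrt (Real.log (Real.log N)))) hlogb h6 t (by
      intro i hi'
      have h8 := ht i hi'
      have h9 : Real.exp (2 * b * Real.sqrt (Real.log (Real.log N))) =
          (Real.exp (b * Real.sqrt (Real.log (Real.log N)))) ^ 2 := by
        rw [← Real.exp_nat_mul]
        congr 1
        push_cast
        ring
      rw [h9]
      show _ ≤ (∑ p ∈ PB κ v N, θ p * (la (f i) p / Real.sqrt p)) ^ 2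
      rw [← sq_abs (∑ p ∈ PB κ v N, θ p * (la (f i) p / Real.sqrt p))]
      exact pow_le_pow_left₀ (Real.exp_pos _).le h8.le 2)
  refine h7.trans ?_
  rw [div_le_iff₀ hlogb]
  exact hlim

end Pool.Agent.LSP
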