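import Pool.Agent.Lib_helper68.LSPV.PDV
import Pool.Agent.Lib_helper68.LSPV.DEFV
import Pool.Agent.Lib_helper68.LSP2.GLX

/-! LSPV: the harmonic average of the large central values, distribution form. -/

set_option autoImplicit false

namespace Pool.Agent.LSP

open Pool.Agent.LEV Pool.Agent.LVB Pool.Agent.KSL
open Pool.Agent.FG61 (mu phi cc ff AA Lam)
open Complex MeasureTheory Filter Topology UpperHalfPlane ModularGroup ProbabilityTheory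
open scoped MatrixGroups Modular ENNReal ModularForm ComplexConjugate ContDiff

/-- the error of the dual norm for long polynomials -/
theorem glv_kc {m₀ : ℕ} {s : ℕ → ℝ} {B τ : ℝ} (hτ : 0 ≤ τ) (hB : 1 ≤ B) (hm : 1 ≤ m₀)
    (hs : ∑ m ∈ Finset.Icc 1 m₀, s m ^ 2 ≤ B) :
    τ * ∑ m ∈ Finset.Icc 1 m₀, |s m| * ((|s m| + 1) * m) +
      τ ^ 2 * ∑ m ∈ Finset.Icc 1 m₀, s m ^ 2 * m ≤ (2 * τ + τ ^ 2) * B * (m₀ : ℝ) ^ 2 := by
  have hm1 : (1 : ℝ) ≤ m₀ := by exact_mod_cast hm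
  have hB0 : 0 ≤ B := by linarith
  have e1 : ∑ m ∈ Finset.Icc 1 m₀, s m ^ 2 * m ≤ B * m₀ := by
    calc ∑ m ∈ Finset.Icc 1 m₀, s m ^ 2 * m ≤ ∑ m ∈ Finset.Icc 1 m₀, s m ^ 2 * m₀ := by
          refine Finset.sum_le_sum fun m hm' => ?_
          rw [Finset.mem_Icc] at hm'
          have : (m : ℝ) ≤ m₀ := by exact_mod_cast hm'.2
          exact mul_le_mul_of_nonneg_left this (sq_nonneg _)
      _ = (∑ m ∈ Finset.Icc 1 m₀, s m ^ 2) * m₀ := by rw [Finset.sum_mul]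
      _ ≤ B * m₀ := mul_le_mul_of_nonneg_right hs (by linarith)
  have e2 : ∑ m ∈ Finset.Icc 1 m₀, |s m| * ((|s m| + 1) * m) ≤ 2 * B * (m₀ : ℝ) ^ 2 := by
    have h1 : ∀ m ∈ Finset.Icc 1 m₀, |s m| * ((|s m| + 1) * m) ≤ s m ^ 2 * m₀ + (s m ^ 2 + 1) / 2 * m₀ := by
      intro m hm'
      rw [Finset.mem_Icc] at hm'
      have h2 : (m : ℝ) ≤ m₀ := by exact_mod_cast hm'.2
      have h3 : |s m| * |s m| = s m ^ 2 := by rw [← sq, sq_abs]
      have h4 : |s m| ≤ (s m ^ 2 + 1) / 2 := by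
        rw [← h3]
        nlinarith [sq_nonneg (|s m| - 1)]
      calc |s m| * ((|s m| + 1) * m) = (|s m| * |s m| + |s m|) * m := by ring
        _ ≤ (s m ^ 2 + (s m ^ 2 + 1) / 2) * m₀ := by
            rw [h3]
            exact mul_le_mul (by linarith) h2 (Nat.cast_nonneg _) (by positivity)
        _ = _ := by ring
    refine (Finset.sum_le_sum h1).trans ?_
    rw [Finset.sum_add_distrib, ← Finset.sum_mul, ← Finset.sum_mul, ← Finset.sum_div,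
      Finset.sum_add_distrib, Finset.sum_const, Nat.card_Icc, nsmul_eq_mul, mul_one]
    have h5 : ((m₀ + 1 - 1 : ℕ) : ℝ) = m₀ := by simp
    rw [h5]
    have h6 : (∑ m ∈ Finset.Icc 1 m₀, s m ^ 2) * m₀ ≤ B * m₀ :=
      mul_le_mul_of_nonneg_right hs (by linarith)
    have h7 : B * m₀ ≤ B * (m₀ : ℝ) ^ 2 := by
      apply mul_le_mul_of_nonneg_left _ hB0
      nlinarith
    have h8 : (m₀ : ℝ) ^ 2 ≤ B * (m₀ : ℝ) ^ 2 := by nlinarith [sq_nonneg (m₀ : ℝ)]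
    nlinarith
  have e3 : τ ^ 2 * ∑ m ∈ Finset.Icc 1 m₀, s m ^ 2 * m ≤ τ ^ 2 * B * (m₀ : ℝ) ^ 2 := by
    calc τ ^ 2 * ∑ m ∈ Finset.Icc 1 m₀, s m ^ 2 * m ≤ τ ^ 2 * (B * m₀) :=
          mul_le_mul_of_nonneg_left e1 (sq_nonneg _)
      _ ≤ τ ^ 2 * (B * (m₀ : ℝ) ^ 2) := by
          apply mul_le_mul_of_nonneg_left _ (sq_nonneg _)
          apply mul_le_mul_of_nonneg_left _ hB0
          nlinarith
      _ = _ := by ring
  have e4 := mul_le_mul_of_nonneg_left e2 hτ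
  calc _ ≤ τ * (2 * B * (m₀ : ℝ) ^ 2) + τ ^ 2 * B * (m₀ : ℝ) ^ 2 := add_le_add e4 e3
    _ = _ := by ring

/-- from the weights `S ^ 2` to the weights `Hd` on the set of large prime sums -/
theorem glv_fin {ι : Type} [Fintype ι] [DecidableEq ι] (o S H : ι → ℝ) (Pv : ι → Prop)
    [DecidablePred Pv] (ho : ∀ i, 0 ≤ o i) {d e C v : ℝ} (he : 0 ≤ e)
    (h1 : ∑ i, o i * |S i ^ 2 - H i * (if Pv i then 1 else 0)| ≤ d)
    (h4 : ∑ i, o i * (S i ^ 2) ^ 2 ≤ C) (t u : Finset ι) (hu : ∑ i ∈ u, o i ≤ e)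
    (ht : v ≤ ∑ i ∈ t, o i * S i ^ 2) (hd : Real.sqrt (e * C) ≤ d) :
    v - 2 * d ≤ ∑ i ∈ t.filter (fun i => i ∉ u ∧ Pv i), o i * H i := by
  have hsm : ∑ i ∈ u, o i * S i ^ 2 ≤ d := (fic_small o S ho he u hu h4).trans hd
  have h2 : ∑ i ∈ t, o i * S i ^ 2 ≤ ∑ i ∈ t,
      ((if i ∉ u ∧ Pv i then o i * H i else 0) +
      o i * |S i ^ 2 - H i * (if Pv i then 1 else 0)| +
      (if i ∈ u then o i * S i ^ 2 else 0)) := by
    apply Finset.sum_le_sum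
    intro i _
    have hoi := ho i
    by_cases h3 : i ∈ u
    · rw [if_pos h3, if_neg (fun h => h.1 h3)]
      have : 0 ≤ o i * |S i ^ 2 - H i * (if Pv i then 1 else 0)| := by positivity
      linarith
    · rw [if_neg h3]
      by_cases h4 : Pv i
      · rw [if_pos ⟨h3, h4⟩, if_pos h4, mul_one, add_zero, ← mul_add]
        apply mul_le_mul_of_nonneg_left _ hoi
        have := le_abs_self (S i ^ 2 - H i)
        linarith
      · rw [if_neg (fun h => h4 h.2), if_neg h4, mul_zero, sub_zero, add_zero, zero_add]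
        exact mul_le_mul_of_nonneg_left (le_abs_self _) hoi
  rw [Finset.sum_add_distrib, Finset.sum_add_distrib, ← Finset.sum_filter] at h2
  have h6 : ∑ i ∈ t, o i * |S i ^ 2 - H i * (if Pv i then 1 else 0)| ≤
      ∑ i, o i * |S i ^ 2 - H i * (if Pv i then 1 else 0)| := by
    apply Finset.sum_le_sum_of_subset_of_nonneg (Finset.subset_univ _)
    intro i _ _
    exact mul_nonneg (ho _) (abs_nonneg _)
  have h7 : ∑ i ∈ t, (if i ∈ u then o i * S i ^ 2 else 0) ≤ ∑ i ∈ u, o i * S i ^ 2 := by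
    rw [← Finset.sum_filter]
    apply Finset.sum_le_sum_of_subset_of_nonneg
    · intro i hi'
      rw [Finset.mem_filter] at hi'
      exact hi'.2
    · intro i _ _
      exact mul_nonneg (ho _) (sq_nonneg _)
  linarith

/-- the harmonic average at every prime level `N`, `P N` -/
theorem gl_absV {q : ℝ} (hq1 : 1 / 2 ≤ q) (hq2 : q ≤ 1) {P : ℕ → Prop} (hQD : QDataV q 12 0 P)
    (A : Finset ℕ) (c : ℕ → ℝ) (hA : ∀ a ∈ A, 1 ≤ a) (hc : ∀ a, 0 ≤ c a) (V ε : ℝ) (hε : 0 < ε) :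
    ∃ N₀ : ℕ, ∀ (N : ℕ) [Fact N.Prime], N₀ ≤ N → P N →
      ∀ {ι : Type} [Fintype ι] (f : ι → S2 N), AllNew f → ∃ t : Finset ι,
        (∀ i ∈ t, co (f i) N = 1 ∧ Real.exp (-Real.log (Real.log N) / 2 +
          V * Real.sqrt (Real.log (Real.log N))) ≤ ‖Lh (f i)‖) ∧
        1 / 2 * (q * ((∑ a ∈ A, c a) * (gaussianReal 0 1).real (Set.Ici V))) - ε ≤
          ∑ i ∈ t, om (f i) * Hd A c (la (f i)) := by
  obtain ⟨A₁, hA₁, hsp⟩ := sp_multV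
  classical
  have hpi := Real.pi_pos
  have h2q : 2 / q ≤ 4 := by
    rw [div_le_iff₀ (by linarith)]
    linarith
  obtain ⟨h₀, hh₀⟩ : ∃ h₀ : ℝ, h₀ = ∑ a ∈ A, c a := ⟨_, rfl⟩
  have hh0 : 0 ≤ h₀ := by rw [hh₀]; exact Finset.sum_nonneg fun a _ => hc a
  obtain ⟨B, hB⟩ : ∃ B : ℝ, B = h₀ + 1 := ⟨_, rfl⟩
  have hB1 : 1 ≤ B := by linarith
  -- small parameters
  obtain ⟨ε', hε0, hεε, hε1⟩ : ∃ ε' : ℝ, 0 < ε' ∧ ε' ≤ ε / 8 ∧ ε' ≤ 1 :=
    ⟨min ε 1 / 8, by positivity, by have := min_le_left ε 1; linarith,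
      by have := min_le_right ε 1; linarith⟩
  obtain ⟨V', hVV, hV'⟩ := fic_gauss V (ε := ε' / (h₀ + 1)) (by positivity)
  obtain ⟨gV, hgV⟩ : ∃ g : ℝ, g = (gaussianReal 0 1).real (Set.Ici V) := ⟨_, rfl⟩
  obtain ⟨gW, hgW⟩ : ∃ g : ℝ, g = (gaussianReal 0 1).real (Set.Ici V') := ⟨_, rfl⟩
  have hgW0 : 0 ≤ gW := by rw [hgW]; exact measureReal_nonneg
  have hgW1 : gW ≤ 1 := by
    rw [hgW]
    exact measureReal_le_one
  rw [← hgV, ← hgW] at hV'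
  have hgg : h₀ * gV - ε' ≤ h₀ * gW := by
    have h9 := mul_le_mul_of_nonneg_left hV' hh0
    have h10 : h₀ * (ε' / (h₀ + 1)) ≤ ε' := by
      rw [mul_div_assoc', div_le_iff₀ (by positivity)]
      nlinarith
    nlinarith
  obtain ⟨e, he0, hse⟩ : ∃ e : ℝ, 0 < e ∧ Real.sqrt e = ε' / (400 * B) :=
    ⟨(ε' / (400 * B)) ^ 2, by positivity, Real.sqrt_sq (by positivity)⟩
  have hse1 : Real.sqrt e ≤ 1 := by
    rw [hse, div_le_one (by positivity)]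
    linarith
  have he1 : e ≤ 1 := by
    have h2 : e = Real.sqrt e ^ 2 := (Real.sq_sqrt he0.le).symm
    rw [h2]
    exact pow_le_one₀ (Real.sqrt_nonneg _) hse1
  obtain ⟨κ', hκ'0, hκ'⟩ : ∃ κ' : ℝ, 0 < κ' ∧ κ' ≤ ε' / (16 * B) :=
    ⟨ε' / (16 * B), by positivity, le_rfl⟩
  obtain ⟨C₀', hC₀'⟩ : ∃ C : ℝ, C = (Real.sqrt B + 1) ^ 2 := ⟨_, rfl⟩
  have hC₀'0 : 0 < C₀' := by rw [hC₀']; positivity
  -- the data
  obtain ⟨T, ρ, B₀, b, ε₂, Ef, xf, Rf, hρ, hB₀, hb0, hb, hε₂0, hε₂8, hmol, X₄, hX₄⟩ :=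
    hQD (e / 2) C₀' (by positivity) hC₀'0
  have hb : b ≤ 2 / q + e := by linarith
  obtain ⟨Cg, hCg1, hgeo⟩ := geo_main hρ hB₀
  obtain ⟨τ, hτ0, hτ⟩ : ∃ τ : ℝ, 0 < τ ∧ (5 * C₀' + 3) / (2 * τ) ≤ e / 8 := by
    refine ⟨4 * (5 * C₀' + 3) / e, by positivity, le_of_eq ?_⟩
    field_simp
    norm_num
  obtain ⟨d, hd0, hdτ, hdε⟩ : ∃ d : ℝ, 0 < d ∧ τ * d / 2 ≤ e / 8 ∧ d ≤ ε' := by
    refine ⟨min (e / (4 * τ)) ε', lt_min (by positivity) hε0, ?_, min_le_right _ _⟩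
    have h2 := mul_le_mul_of_nonneg_left (min_le_left (e / (4 * τ)) ε') hτ0.le
    have h3 : τ * (e / (4 * τ)) = e / 4 := by field_simp
    rw [h3] at h2
    linarith
  obtain ⟨I, m₁, Rp, pp, C₄, hIp, hRp, hC₄, hpoly⟩ := poly_dataV A c hA hc V' hd0
  obtain ⟨N₁, hN₁⟩ := hpoly ε₂ hε₂0 hε₂8
  obtain ⟨e₂, he₂0, he₂e, he₂B⟩ : ∃ e₂ : ℝ, 0 < e₂ ∧ e₂ ≤ e ∧ Real.sqrt (B * e₂) ≤ e / 4 := by
    refine ⟨min e (e ^ 2 / (16 * B)), lt_min he0 (by positivity), min_le_left _ _, ?_⟩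
    apply Real.sqrt_le_iff.mpr
    refine ⟨by positivity, ?_⟩
    calc B * min e (e ^ 2 / (16 * B)) ≤ B * (e ^ 2 / (16 * B)) :=
          mul_le_mul_of_nonneg_left (min_le_right _ _) (by linarith)
      _ = (e / 4) ^ 2 := by field_simp; norm_num
  obtain ⟨X₁, hX₁⟩ := hsp I m₁ Rp pp hIp hRp ε₂ e₂ C₄ hε₂0 he₂0
  obtain ⟨X₃, hX₃⟩ := hmol.coef
  -- typical sizes
  obtain ⟨et, het0, het, het1⟩ : ∃ et : ℝ, 0 < et ∧ Real.sqrt (2 * et * C₄) ≤ ε' ∧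
      et ≤ (V' - V) / (16 * (|V'| + 1)) := by
    have hVp : 0 < V' - V := by linarith
    refine ⟨min (ε' ^ 2 / (2 * (C₄ + 1))) ((V' - V) / (16 * (|V'| + 1))),
      lt_min (by positivity) (by positivity), ?_, min_le_right _ _⟩
    apply Real.sqrt_le_iff.mpr
    refine ⟨hε0.le, ?_⟩
    calc 2 * min (ε' ^ 2 / (2 * (C₄ + 1))) ((V' - V) / (16 * (|V'| + 1))) * C₄ ≤
          2 * (ε' ^ 2 / (2 * (C₄ + 1))) * C₄ := by
          have := min_le_left (ε' ^ 2 / (2 * (C₄ + 1))) ((V' - V) / (16 * (|V'| + 1)))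
          gcongr
      _ = ε' ^ 2 * (C₄ / (C₄ + 1)) := by field_simp
      _ ≤ ε' ^ 2 * 1 := by
          have h3 : C₄ / (C₄ + 1) ≤ 1 := by
            rw [div_le_one (by positivity)]
            linarith
          gcongr
      _ = ε' ^ 2 := mul_one _
  obtain ⟨X₅, hX₅⟩ := hmol.typ et het0 et het0
  obtain ⟨X₆, hX₆⟩ := typ_b hA₁ het0
  obtain ⟨X₈, hX₈⟩ := hb_in het0
  -- sizes
  have hCg0 : 0 < Cg := by linarith
  obtain ⟨Kc, hKc⟩ : ∃ Kc : ℝ, Kc = (2 * τ + τ ^ 2) * B := ⟨_, rfl⟩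
  have hKc0 : 0 ≤ Kc := by rw [hKc]; positivity
  obtain ⟨X₇, hX₇⟩ := hmol.size (1 / (Cg + Cg * Kc)) (by positivity)
  have hll : Tendsto (fun N : ℕ => Real.log (Real.log (N : ℝ))) atTop atTop :=
    Real.tendsto_log_atTop.comp (Real.tendsto_log_atTop.comp tendsto_natCast_atTop_atTop)
  obtain ⟨X₉, hX₉⟩ := Filter.eventually_atTop.mp
    (hll.eventually_ge_atTop (max 0 ((2 * -Real.log κ' / (V' - V)) ^ 2)))
  refine ⟨N₁ + X₁ + X₃ + X₄ + X₅ + X₆ + X₇ + X₈ + X₉ + 4, fun N _ hN hPN ι _ f hf => ?_⟩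
  obtain ⟨s, hs1, hs, hsx, hs4, hsd, hpf⟩ := hN₁ N (by omega)
  obtain ⟨m₀, hm₀⟩ : ∃ m₀ : ℕ, m₀ = KA ε₂ N := ⟨_, rfl⟩
  have hNr : (1 : ℝ) ≤ N := by exact_mod_cast (by omega : 1 ≤ N)
  have hm₀1 : 1 ≤ m₀ := by
    rw [hm₀]
    unfold KA
    rw [Nat.one_le_floor_iff]
    exact Real.one_le_rpow hNr hε₂0.le
  obtain ⟨x, hx⟩ : ∃ x : ℝ, x = ∑ m ∈ Finset.Icc 1 (KA ε₂ N), s m ^ 2 := ⟨_, rfl⟩
  have hx0 : 0 ≤ x := by rw [hx]; exact Finset.sum_nonneg fun m _ => sq_nonneg _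
  rw [← hx, ← hh₀, ← hgW] at hsd
  have hxB : x ≤ B := by
    have h2 := (abs_le.mp hsd).2
    have h3 : h₀ * gW ≤ h₀ := mul_le_of_le_one_right hh0 hgW1
    linarith
  -- the smooth coefficients
  obtain ⟨Pm, hPm⟩ := st_exists (IZ N) (fun p hp => by
    unfold IZ at hp
    exact (Finset.mem_filter.mp hp).2)
  obtain ⟨a, ha, haS, hacd, hacn, hapt⟩ := hX₁ N (by omega) s hs1 hsx Pm hPm (hs4 Pm hPm)
  have hapt' : ∀ k : ℕ, |a k| * Real.sqrt k ≤ Real.log N ^ 12 * tau k ^ 0 := by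
    intro k
    rw [pow_zero, mul_one]
    exact hapt k
  obtain ⟨hsupp, hzero, hmx, hww⟩ := hX₃ N (by omega) hPN a ha hapt'
  obtain ⟨hE1', hEc⟩ := hX₇ N (by omega)
  have hNp : N.Prime := Fact.out
  have hmain' := fun hC => hX₄ N (by omega) hNp hPN a ha hapt' hC
  obtain ⟨E, hE⟩ : ∃ E : ℕ, E = Ef N := ⟨_, rfl⟩
  obtain ⟨xv, hxv⟩ : ∃ xv : ℕ → ℝ, xv = xf N a := ⟨_, rfl⟩
  obtain ⟨Rv, hRv⟩ : ∃ Rv : (ℕ → ℝ) → ℝ, Rv = Rf N := ⟨_, rfl⟩
  rw [← hE] at hE1' hEc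
  rw [← hE, ← hxv] at hsupp hzero
  rw [← hE, ← hxv] at hmain'
  simp only [← hE, ← hxv, ← hRv] at hmx
  simp only [← hE, ← hxv] at hww
  rw [← hx] at hacn
  simp only [← hm₀] at hs hx haS hacd hacn hww hEc hpf ha hmain' hmx
  rw [← hx] at hpf
  obtain ⟨hWW, hlin⟩ := hm_lin2 ha.sup hs hww
  rw [← hx] at hlin
  have hcd0 : 0 ≤ cd (zz N) m₀ a s := tsum_nonneg fun m => by split_ifs <;> positivity
  have hcn0 : 0 ≤ cn (zz N) m₀ a := tsum_nonneg fun m => by split_ifs <;> positivity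
  have hv : Real.sqrt (cd (zz N) m₀ a s) ≤ 1 :=
    (Real.sqrt_le_sqrt (hacd.trans he₂e)).trans hse1
  have hcn1 : Real.sqrt (cn (zz N) m₀ a) ≤ Real.sqrt x + Real.sqrt e :=
    hacn.trans (by have := Real.sqrt_le_sqrt he₂e; linarith)
  have hcnC : cn (zz N) m₀ a ≤ C₀' := by
    calc cn (zz N) m₀ a = Real.sqrt (cn (zz N) m₀ a) ^ 2 := (Real.sq_sqrt hcn0).symm
      _ ≤ (Real.sqrt B + 1) ^ 2 := by
        apply pow_le_pow_left₀ (Real.sqrt_nonneg _)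
        have := Real.sqrt_le_sqrt hxB
        linarith
      _ = C₀' := hC₀'.symm
  obtain ⟨cnv, hcnv⟩ : ∃ cnv : ℝ, cnv = cn (zz N) m₀ a := ⟨_, rfl⟩
  have hQN : QN ρ T B₀ E xv N ≤ b * cnv + e := by
    have h2 := hmain' hcnC
    rw [← hcnv] at h2
    linarith
  rw [← hcnv] at hcn0 hcn1 hcnC
  have hQN5 : b * cnv + e ≤ 5 * C₀' + 1 := by
    have h2 : b ≤ 5 := by linarith
    have h3 : b * cnv ≤ 5 * C₀' := mul_le_mul h2 hcnC hcn0 (by norm_num)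
    linarith
  -- the length
  have hN0 : (0 : ℝ) < N := by exact_mod_cast hNp.pos
  have hm₀r : (1 : ℝ) ≤ m₀ := by exact_mod_cast hm₀1
  have hlen : (E : ℝ) * (m₀ : ℝ) ^ 2 * (Cg + Cg * Kc) ≤ N := by
    rw [div_mul_eq_mul_div, one_mul, le_div_iff₀ (by positivity)] at hEc
    exact hEc
  have hlen1 : Cg * m₀ * E ≤ N := by
    have h3 : 0 ≤ (E : ℝ) * (m₀ : ℝ) ^ 2 * (Cg * Kc) := by positivity
    have h4 : Cg * m₀ * E ≤ (E : ℝ) * (m₀ : ℝ) ^ 2 * Cg := by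
      have h5 : (m₀ : ℝ) ≤ (m₀ : ℝ) ^ 2 := by nlinarith
      calc Cg * m₀ * E = Cg * E * m₀ := by ring
        _ ≤ Cg * E * (m₀ : ℝ) ^ 2 := mul_le_mul_of_nonneg_left h5 (by positivity)
        _ = _ := by ring
    linarith
  have hlen2 : Cg * ((E : ℝ) / N) * (Kc * (m₀ : ℝ) ^ 2) ≤ 1 := by
    have h3 : 0 ≤ (E : ℝ) * (m₀ : ℝ) ^ 2 * Cg := by positivity
    have h4 : Cg * ((E : ℝ) / N) * (Kc * (m₀ : ℝ) ^ 2) = (E * (m₀ : ℝ) ^ 2 * (Cg * Kc)) / N := by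
      ring
    rw [h4, div_le_one hN0]
    linarith
  have hi : Function.Injective f := hf.1
  have hn : ∀ i, IsNew (f i) := fun i => (hf.2 (f i)).mpr ⟨i, rfl⟩
  have hom : ∀ i, 0 ≤ om (f i) := fun i => (fid_om (hn i)).2.1.le
  -- the dual norm
  have hgeo' := hgeo N E m₀ hE1' hm₀1 hlen1 xv hsupp hzero f hi hn s
    (fun m hm => ⟨(hs m hm).1, (hs m hm).2.1⟩)
  obtain ⟨F, hF⟩ : ∃ F : ι → ℝ, F = fun i => (Lh (f i)).re * MX E xv (la (f i)) := ⟨_, rfl⟩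
  obtain ⟨S, hS⟩ : ∃ S : ι → ℝ, S = fun i => ∑ m ∈ Finset.Icc 1 m₀, s m * Um m (la (f i)) :=
    ⟨_, rfl⟩
  obtain ⟨hp1, hp2, hp3, hp4⟩ := hpf f hf
  have hSi : ∀ i, ∑ m ∈ Finset.Icc 1 m₀, s m * Um m (la (f i)) = S i := fun i => by rw [hS]
  have hFi : ∀ i, (Lh (f i)).re * MX E xv (la (f i)) = F i := fun i => by rw [hF]
  simp only [hSi] at hp1 hp2 hp3 hp4
  simp only [hSi, hFi] at hgeo'
  have h2nd : ∑ i, om (f i) * F i ^ 2 ≤ b * cnv + e := by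
    have h2 := hgeo' 0
    simp only [zero_mul, add_zero, abs_zero, mul_zero, ne_eq, OfNat.ofNat_ne_zero,
      not_false_eq_true, zero_pow] at h2
    exact h2.trans hQN
  have h1st : x - e ≤ ∑ i, om (f i) * (F i * S i) := by
    have h2 := hgeo' (-τ)
    rw [← hx] at h2
    have hkc : τ * ∑ m ∈ Finset.Icc 1 m₀, |s m| * ((|s m| + 1) * m) +
        τ ^ 2 * ∑ m ∈ Finset.Icc 1 m₀, s m ^ 2 * m ≤ Kc * (m₀ : ℝ) ^ 2 := by
      rw [hKc]
      exact glv_kc hτ0.le hB1 hm₀1 (by rw [← hx]; exact hxB)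
    have h3 := gl_err (m₀ := m₀) (s := s) (W := fun m => WW E (wX E xv) m)
      (v := Real.sqrt (cd (zz N) m₀ a s)) (τ := τ) (r := (E : ℝ) / N) (Cg := Cg) hτ0.le
      (by positivity) hCg0.le hv hWW (by
        refine le_trans ?_ hlen2
        exact mul_le_mul_of_nonneg_left hkc (by positivity))
    have h4 := hm_first (fun i => om (f i)) F S hom (Q := b * cnv + e)
      (l := ∑ m ∈ Finset.Icc 1 m₀, s m * WW E (wX E xv) m / Real.sqrt m) (s₂ := x) (e := 1)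
      (dd := d) hτ0 (by
        refine h2.trans ?_
        have h5 := add_le_add hQN h3
        linarith) hp2
    have h5 : (b * cnv + e + 1) / (2 * τ) ≤ e / 8 := by
      refine le_trans ?_ hτ
      apply div_le_div_of_nonneg_right _ (by positivity)
      linarith
    have h6 : |∑ m ∈ Finset.Icc 1 m₀, s m * WW E (wX E xv) m / Real.sqrt m - x| ≤ e / 4 := by
      refine hlin.trans ((Real.sqrt_le_sqrt ?_).trans he₂B)
      exact mul_le_mul hxB hacd hcd0 (by linarith)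
    have h7 := (abs_le.mp h6).1
    linarith
  obtain ⟨t, ht, htS⟩ := cr_core (fun i => om (f i)) F S hom (q := q) (x := x) (e := e) (B := B)
    (ε := ε') (b := b) (κ := κ') (cn := cnv) hq1 hq2 hx0 hxB hB1 hε0 hε1 he0 hse.le hb0 hb hκ'0
    hκ' hcn1 hcn0 h1st h2nd hp3
  -- atypical forms
  obtain ⟨u₁, hu₁⟩ : ∃ u₁ : Finset ι, u₁ = Finset.univ.filter
    (fun i => Real.exp (-LVB.PB (IN N) (la (f i)) + Real.log (Real.log N) / 2 +
      et * Real.sqrt (Real.log (Real.log N))) < |Bz A₁ N (la (f i))|) := ⟨_, rfl⟩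
  obtain ⟨u₂, hu₂⟩ : ∃ u₂ : Finset ι, u₂ = Finset.univ.filter
    (fun i => Real.exp (et * Real.sqrt (Real.log (Real.log N))) < |Rv (la (f i))|) := ⟨_, rfl⟩
  have hb1 : ∑ i ∈ u₁, om (f i) ≤ et := hX₆ N (by omega) f hi hn u₁ (fun i hi' => by
    rw [hu₁, Finset.mem_filter] at hi'; exact hi'.2)
  have hb2 : ∑ i ∈ u₂, om (f i) ≤ et := hX₅ N (by omega) hPN f hi hn u₂ (fun i hi' => by
    rw [hu₂, Finset.mem_filter] at hi'
    rw [← hRv]
    exact hi'.2)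
  have hb3 : ∑ i ∈ u₁ ∪ u₂, om (f i) ≤ 2 * et := by
    have h2 : ∑ i ∈ u₁ ∪ u₂, om (f i) ≤ ∑ i ∈ u₁, om (f i) + ∑ i ∈ u₂, om (f i) := by
      rw [← Finset.sum_union_inter]
      have : 0 ≤ ∑ i ∈ u₁ ∩ u₂, om (f i) := Finset.sum_nonneg fun i _ => hom i
      linarith
    linarith
  have hfin := glv_fin (fun i => om (f i)) S (fun i => Hd A c (la (f i)))
    (fun i => V' ≤ Pn N (la (f i))) hom (d := ε')
    (e := 2 * et) (C := C₄) (by positivity) (by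
      refine le_trans (le_of_eq ?_) (hp1.trans hdε)
      refine Finset.sum_congr rfl fun i _ => ?_
      unfold iV
      rfl) hp4 t (u₁ ∪ u₂) hb3 htS het
  refine ⟨t.filter (fun i => i ∉ u₁ ∪ u₂ ∧ V' ≤ Pn N (la (f i))), ?_, ?_⟩
  · intro i hi'
    rw [Finset.mem_filter, Finset.mem_union] at hi'
    obtain ⟨hit, hiu, hiV⟩ := hi'
    push Not at hiu
    obtain ⟨h2, h3⟩ := ht i hit
    have hS0 : 0 < |S i| := abs_pos.mpr h3
    have hF0 : F i ≠ 0 := by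
      intro h4
      rw [h4, abs_zero] at h2
      have := mul_pos hκ'0 hS0
      linarith
    have hco : co (f i) N = 1 := by
      by_contra h4
      apply hF0
      rw [← hFi, lh_odd (hn i) h4]
      simp
    refine ⟨hco, ?_⟩
    obtain ⟨L, hLdef⟩ : ∃ L : ℝ, L = Real.log (Real.log N) := ⟨_, rfl⟩
    have hL := hX₉ N (by omega)
    obtain ⟨hb1', hb2', hb3'⟩ := hX₈ N (by omega)
    rw [← hLdef] at hL
    have hL0 : 0 ≤ L := (le_max_left _ _).trans hL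
    have hVp : 0 < V' - V := by linarith
    have hκL : -Real.log κ' ≤ (V' - V) / 2 * Real.sqrt L := by
      have h1 : (2 * -Real.log κ' / (V' - V)) ^ 2 ≤ L := (le_max_right _ _).trans hL
      have h2 : 2 * -Real.log κ' / (V' - V) ≤ Real.sqrt L := Real.le_sqrt_of_sq_le h1
      rw [div_le_iff₀ hVp] at h2
      linarith
    have h4 : |Bz A₁ N (la (f i))| ≤ Real.exp (-LVB.PB (IN N) (la (f i)) + L / 2 +
        et * Real.sqrt L) := by
      by_contra h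
      push Not at h
      exact hiu.1 (by
        rw [hu₁, Finset.mem_filter, ← hLdef]
        exact ⟨Finset.mem_univ _, h⟩)
    have h5 : |Rv (la (f i))| ≤ Real.exp (et * Real.sqrt L) := by
      by_contra h
      push Not at h
      exact hiu.2 (by
        rw [hu₂, Finset.mem_filter, ← hLdef]
        exact ⟨Finset.mem_univ _, h⟩)
    have h6 : |F i| = |(Lh (f i)).re| * |Bz A₁ N (la (f i))| *
        |Rv (la (f i))| * |S i| := by
      rw [← hFi, hmx, haS, hSi, abs_mul, abs_mul, abs_mul]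
      ring
    have h7 : κ' ≤ ‖Lh (f i)‖ * |Bz A₁ N (la (f i))| * |Rv (la (f i))| := by
      have h8 : κ' * |S i| ≤ ‖Lh (f i)‖ * |Bz A₁ N (la (f i))| * |Rv (la (f i))| * |S i| := by
        rw [h6] at h2
        refine h2.trans ?_
        gcongr
        exact Complex.abs_re_le_norm _
      exact le_of_mul_le_mul_right h8 hS0
    have h8 : V' * Real.sqrt (HB (IN N)) ≤ LVB.PB (IN N) (la (f i)) := by
      unfold Pn at hiV
      have h9 : 0 < Real.sqrt (HB (IN N)) := Real.sqrt_pos.mpr (by linarith)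
      rw [le_div_iff₀ h9] at hiV
      exact hiV
    rw [← hLdef] at hb1' hb2' ⊢
    exact fic_low hVV hκ'0 het0 het1 hL0 hb1' hb2' hκL (abs_nonneg _) h4 (abs_nonneg _) h5 h8
      (norm_nonneg _) h7
  · have h2 := (abs_le.mp hsd).1
    have h3 : h₀ * gV - 2 * ε' ≤ x := by linarith
    have h4 : q * (h₀ * gV) - 2 * ε' ≤ q * x := by
      have h5 : 0 ≤ q := by linarith
      have h6 := mul_le_mul_of_nonneg_left h3 h5
      have h7 : q * (2 * ε') ≤ 2 * ε' := mul_le_of_le_one_left (by linarith) hq2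
      have h8 : q * (h₀ * gV - 2 * ε') = q * (h₀ * gV) - q * (2 * ε') := by ring
      linarith
    rw [← hh₀, ← hgV]
    linarith

end Pool.Agent.LSP
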