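import Pool.Agent.Lib_helper68.LSPV.SPV

/-! LSP2, distribution form: the small factor of the mollifier. -/

set_option autoImplicit false

namespace Pool.Agent.LSP

open Pool.Agent.LEV Pool.Agent.LVB Pool.Agent.KSL
open Pool.Agent.FG61 (mu phi cc ff AA Lam)
open Complex MeasureTheory Filter Topology UpperHalfPlane ModularGroup ProbabilityTheory
open scoped MatrixGroups Modular ENNReal ModularForm ComplexConjugate ContDiff

/-- **the small factor of the mollifier for `p(P_N) R`**, with a pointwise bound for the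
coefficients -/
theorem sp_multV : ∃ A₁ : ℕ, 1 ≤ A₁ ∧ ∀ (I : Finset ℕ) (m₀ : ℕ) (R : (ℕ → ℝ) → ℝ)
    (p : Polynomial ℝ), (∀ q ∈ I, q.Prime) → HPoly I m₀ R → ∀ ε₂ ε C₄ : ℝ, 0 < ε₂ → 0 < ε →
    ∃ N₀ : ℕ, ∀ N : ℕ, N₀ ≤ N → ∀ s : ℕ → ℝ,
    (∀ m, s m ≠ 0 → 1 ≤ m ∧ m ≤ KA (ε₂ / 4) N ∧ m.primeFactors ⊆ IZ N) →
    (∀ x, ∑ m ∈ Finset.Icc 1 (KA ε₂ N), s m * Um m x = p.eval (Pn N x) * R x) →
    ∀ P : Measure (ℕ → ℝ), IsST (IZ N) P →
    ∫ x, (∑ m ∈ Finset.Icc 1 (KA ε₂ N), s m * Um m x) ^ 4 ∂P ≤ C₄ →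
    ∃ a : ℕ → ℝ, Sht (zz N) (KA ε₂ N) a ∧
      (∀ x, ∑ k ∈ Finset.Icc 1 (KA ε₂ N), a k * Um k x =
        Bz A₁ N x * ∑ m ∈ Finset.Icc 1 (KA ε₂ N), s m * Um m x) ∧
      cd (zz N) (KA ε₂ N) a s ≤ ε ∧
      Real.sqrt (cn (zz N) (KA ε₂ N) a) ≤
        Real.sqrt (∑ m ∈ Finset.Icc 1 (KA ε₂ N), s m ^ 2) + Real.sqrt ε ∧
      ∀ k : ℕ, |a k| * Real.sqrt k ≤ Real.log N ^ 12 := by
  classical
  obtain ⟨A₁, hA₁, hsp⟩ := sp_mult
  refine ⟨A₁, hA₁, fun I m₀ R p hI hR ε₂ ε C₄ hε₂ hε => ?_⟩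
  obtain ⟨cR, hcR, hRx⟩ := id hR
  obtain ⟨BR, hBR⟩ : ∃ BR : ℝ, BR = ∑ m ∈ Finset.Icc 1 m₀, |cR m| *
      ∏ q ∈ m.primeFactors, ((m.factorization q : ℝ) + 1) := ⟨_, rfl⟩
  have hBR0 : 0 ≤ BR := by
    rw [hBR]
    exact Finset.sum_nonneg fun m _ => mul_nonneg (abs_nonneg _)
      (Finset.prod_nonneg fun q _ => by positivity)
  obtain ⟨N₁, hN₁⟩ := hsp ε₂ ε C₄ hε₂ hε
  obtain ⟨N₂, hN₂⟩ := iz_split
  obtain ⟨C2, hC2⟩ := Pool.Agent.LEV.mertens_two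
  obtain ⟨Cp, hCp⟩ : ∃ Cp : ℝ, Cp = ∑ k ∈ Finset.range (p.natDegree + 1), |p.coeff k| := ⟨_, rfl⟩
  obtain ⟨N₃, hN₃⟩ := spv_size A₁ p.natDegree Cp C2 (BR ^ 2) (∑ q ∈ I, (q : ℝ)) m₀
  obtain ⟨N₄, hN₄⟩ := hb_in (ε := 1) one_pos
  obtain ⟨N₅, hN₅⟩ := pn_hpoly p (ε₂ := 1) one_pos
  refine ⟨N₁ + N₂ + N₃ + N₄ + N₅, fun N hN s hs hSx P hP hC4 => ?_⟩
  obtain ⟨hz, hdis, hpr', hsm, -⟩ := hN₂ N (by omega)
  obtain ⟨h3, hlog1, hSq, hD, hm₀', hBRL, hpol⟩ := hN₃ N (by omega)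
  obtain ⟨-, -, hHB1⟩ := hN₄ N (by omega)
  have := hP.prob
  have hpr : ∀ p ∈ IZ N, p.Prime := fun p hp => (hpr' p hp).1
  have hlog0 : 0 < Real.log N := by linarith
  obtain ⟨L, hLdef⟩ : ∃ L : ℝ, L = Real.log N := ⟨_, rfl⟩
  rw [← hLdef] at hlog1 hSq hD hm₀' hBRL hpol hlog0 ⊢
  have hLL0 : 0 ≤ Real.log L := Real.log_nonneg hlog1
  have hII0 : I ⊆ I0 N := by
    intro q hq
    have h4 : (q : ℝ) ≤ Real.log L :=
      (Finset.single_le_sum (f := fun q : ℕ => (q : ℝ)) (fun _ _ => Nat.cast_nonneg _) hq).trans hSq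
    unfold I0
    rw [Finset.mem_filter, Finset.mem_Icc, ← hLdef]
    exact ⟨⟨(hI q hq).one_le, Nat.le_floor h4⟩, hI q hq⟩
  have hI0 : I0 N ⊆ IZ N := by rw [hz]; exact Finset.subset_union_left
  have hIN : IN N ⊆ IZ N := by rw [hz]; exact Finset.subset_union_right
  obtain ⟨a, ha, hax, hcd, hcn⟩ := hN₁ N (by omega) s hs P hP hC4
  refine ⟨a, ha, hax, hcd, hcn, fun k => ?_⟩
  by_cases hak : a k = 0
  · rw [hak, abs_zero, zero_mul]
    positivity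
  have haA : ∀ m, a m ≠ 0 → 1 ≤ m ∧ m ≤ KA ε₂ N ∧ m.primeFactors ⊆ IZ N := by
    intro m hm
    obtain ⟨h1, h2⟩ := ha.sup m hm
    obtain ⟨h4, h5⟩ := (hsm m).mp h1
    exact ⟨h4, h2, h5⟩
  obtain ⟨hk1, hk2, hk3⟩ := haA k hak
  have hprI0 : ∀ p ∈ I0 N, p.Prime := fun p hp => hpr p (hI0 hp)
  have hprIN : ∀ p ∈ IN N, p.Prime := fun p hp => hpr p (hIN hp)
  -- the polynomial in the tiny primes
  have hSH : HPoly (I0 N) m₀ R := sch_mono_set hII0 hR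
  obtain ⟨α, hα, hαx⟩ := hpoly_mul hprI0 hprI0 (bzp_prod_hpoly (I0 N) hprI0) hSH
  rw [Finset.union_self] at hα
  obtain ⟨X, hX⟩ : ∃ X : ℕ, X = (∏ p ∈ I0 N, p) * m₀ := ⟨_, rfl⟩
  rw [← hX] at hα hαx
  -- the polynomial in the other primes
  obtain ⟨K, hK⟩ : ∃ K : ℕ, K = A₁ * ⌈Real.log L⌉₊ := ⟨_, rfl⟩
  rw [← hK] at hpol
  have hex : HPoly (IN N) (zz N ^ (2 * K)) (mb1 (IN N) K) := by
    apply hpoly_ex hprIN
    · apply Nat.le_floor
      rw [Nat.cast_one]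
      unfold zN
      rw [← Real.exp_zero]
      apply Real.exp_le_exp.2
      have : 0 ≤ Real.log N := by rw [← hLdef]; exact hlog0.le
      have h5 : 0 ≤ Real.log (Real.log N) := by rw [← hLdef]; exact hLL0
      positivity
    · intro p hp
      exact (Finset.mem_Icc.1 (Finset.mem_filter.1 hp).1).2
  obtain ⟨β, hβ, hβx⟩ := hpoly_mul hprIN hprIN hex (hN₅ N (by omega))
  rw [Finset.union_self] at hβ
  obtain ⟨Y, hY⟩ : ∃ Y : ℕ, Y = zz N ^ (2 * K) * KA 1 N := ⟨_, rfl⟩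
  rw [← hY] at hβ hβx
  have hPI0 : IsST (I0 N) P := st_sub hI0 hP
  have hPIN : IsST (IN N) P := st_sub hIN hP
  have hHB : Real.exp (HB (IN N)) ≤ L ^ 2 := by
    have h := psa_all hC2 (x := (N : ℝ)) (by linarith) (S := IN N) (fun p hp =>
      ⟨hprIN p hp, by exact_mod_cast (hpr' p (hIN hp)).2.le⟩)
    rw [← hLdef] at h
    calc Real.exp (HB (IN N)) ≤ Real.exp (Real.log L + C2) := Real.exp_le_exp.mpr h
      _ = L * Real.exp C2 := by rw [Real.exp_add, Real.exp_log hlog0]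
      _ ≤ L * L := by gcongr
      _ = L ^ 2 := by ring
  -- the coefficients `β`
  have hB : ∀ m, |β m| * Real.sqrt m ≤ L ^ 3 := by
    intro m
    by_cases hm : β m = 0
    · rw [hm, abs_zero, zero_mul]; positivity
    · obtain ⟨h4, h5, h6⟩ := hβ m hm
      have h7 := spm_orth hprIN hPIN hβ h4 h6
      have h8 := spv_poly hprIN hPIN hHB1 K p (m := m) h4 h6
      have h9 : ∫ x, (mb1 (IN N) K x * p.eval (PB (IN N) x / Real.sqrt (HB (IN N)))) * Um m x ∂P =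
          β m := by
        rw [← h7]
        apply integral_congr_ae
        refine Eventually.of_forall fun x => ?_
        beta_reduce
        rw [← hβx x]
        rfl
      rw [h9, ← hCp] at h8
      refine h8.trans ?_
      calc Cp * (2 * (K : ℝ) + p.natDegree + 1) ^ p.natDegree * Real.exp (HB (IN N)) ≤
            L * L ^ 2 := mul_le_mul hpol hHB (Real.exp_pos _).le hlog0.le
        _ = L ^ 3 := by ring
  -- the coefficients `α`
  have hcard : (16 : ℝ) ^ (I0 N).card ≤ L ^ 3 := by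
    have b1 : (I0 N).card ≤ ⌊Real.log L⌋₊ := by
      calc (I0 N).card ≤ (Finset.Icc 1 ⌊Real.log (Real.log N)⌋₊).card := Finset.card_filter_le _ _
        _ = ⌊Real.log L⌋₊ := by simp [hLdef]
    have b2 : ((I0 N).card : ℝ) ≤ Real.log L :=
      le_trans (by exact_mod_cast b1) (Nat.floor_le hLL0)
    calc (16 : ℝ) ^ (I0 N).card = (16 : ℝ) ^ ((I0 N).card : ℝ) := (Real.rpow_natCast _ _).symm
      _ ≤ (16 : ℝ) ^ (Real.log L) := Real.rpow_le_rpow_of_exponent_le (by norm_num) b2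
      _ ≤ L ^ (3 : ℝ) := by
          rw [Real.rpow_def_of_pos (by norm_num), Real.rpow_def_of_pos hlog0]
          apply Real.exp_le_exp.2
          rw [mul_comm (Real.log L)]
          apply mul_le_mul_of_nonneg_right _ hLL0
          have e : Real.log 16 = 4 * Real.log 2 := by
            rw [show (16 : ℝ) = 2 ^ 4 by norm_num, Real.log_pow]
            norm_num
          rw [e]
          have := Real.log_two_lt_d9
          linarith
      _ = L ^ 3 := by norm_cast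
  have hα2 : ∑ m ∈ Finset.Icc 1 X, α m ^ 2 ≤ L ^ 4 := by
    rw [← st_sq hprI0 hPI0 hα]
    have h4 : ∀ᵐ x ∂P, (∑ m ∈ Finset.Icc 1 X, α m * Um m x) ^ 2 ≤ L ^ 3 * BR ^ 2 := by
      filter_upwards [hP.bdd] with x hx
      rw [← hαx x]
      have a1 : |∏ p ∈ I0 N, (1 - x p / Real.sqrt p + 1 / p)| ≤ 4 ^ (I0 N).card := by
        rw [Finset.abs_prod]
        calc ∏ p ∈ I0 N, |1 - x p / Real.sqrt p + 1 / p| ≤ ∏ _p ∈ I0 N, (4 : ℝ) :=
              Finset.prod_le_prod (fun p _ => abs_nonneg _) (fun p hp =>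
                bzp_fac_abs (hprI0 p hp) (hx p (hI0 hp)))
          _ = _ := by rw [Finset.prod_const]
      have a2 : (∏ p ∈ I0 N, (1 - x p / Real.sqrt p + 1 / p)) ^ 2 ≤ L ^ 3 := by
        rw [← sq_abs]
        calc _ ≤ ((4 : ℝ) ^ (I0 N).card) ^ 2 := pow_le_pow_left₀ (abs_nonneg _) a1 2
          _ = 16 ^ (I0 N).card := by rw [← pow_mul, mul_comm, pow_mul]; norm_num
          _ ≤ L ^ 3 := hcard
      have a3 : R x ^ 2 ≤ BR ^ 2 := by
        rw [← sq_abs]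
        refine pow_le_pow_left₀ (abs_nonneg _) ?_ 2
        rw [hRx x, hBR]
        refine (Finset.abs_sum_le_sum_abs _ _).trans (Finset.sum_le_sum fun m _ => ?_)
        rw [abs_mul]
        by_cases h : cR m = 0
        · rw [h]; simp
        · exact mul_le_mul_of_nonneg_left
            (spm_um_bd ((hcR m h).2.2.trans (hII0.trans hI0)) hx) (abs_nonneg _)
      rw [mul_pow]
      exact mul_le_mul a2 a3 (sq_nonneg _) (by positivity)
    calc _ ≤ ∫ _x, L ^ 3 * BR ^ 2 ∂P :=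
          integral_mono_of_nonneg (Eventually.of_forall fun x => sq_nonneg _)
            (integrable_const _) h4
      _ = L ^ 3 * BR ^ 2 := by simp
      _ ≤ L ^ 3 * L := by gcongr
      _ = L ^ 4 := by ring
  have hA : ∀ m, |α m| ≤ L ^ 2 := by
    intro m
    by_cases hm : α m = 0
    · rw [hm, abs_zero]; positivity
    · obtain ⟨h4, h5, h6⟩ := hα m hm
      have h7 : α m ^ 2 ≤ ∑ m ∈ Finset.Icc 1 X, α m ^ 2 :=
        Finset.single_le_sum (f := fun m => α m ^ 2) (fun i _ => sq_nonneg _)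
          (Finset.mem_Icc.mpr ⟨h4, h5⟩)
      apply abs_le_of_sq_le_sq _ (by positivity)
      calc α m ^ 2 ≤ L ^ 4 := h7.trans hα2
        _ = (L ^ 2) ^ 2 := by ring
  -- conclusion
  have hXL : (X : ℝ) ≤ L ^ 3 := by
    rw [hX]
    push_cast
    have b1 := bzp_I0_prod N (by rw [← hLdef]; exact hLL0) (by rw [← hLdef]; exact hlog0)
    rw [← hLdef] at b1
    push_cast at b1
    calc (∏ p ∈ I0 N, (p : ℝ)) * (m₀ : ℝ) ≤ L ^ (2 : ℝ) * L := by gcongr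
      _ = L ^ 3 := by
          have : L ^ (2 : ℝ) = L ^ 2 := by norm_cast
          rw [this]; ring
  have hmain := spp_prod (A := L ^ 2) (B := L ^ 3) hdis (by rw [← hz]; exact hP) hα
    (G := fun x => (∏ p ∈ I0 N, (1 - x p / Real.sqrt p + 1 / p)) * R x) hαx hβ
    (H := fun x => mb1 (IN N) K x * p.eval (Pn N x)) hβx
    hA hB (by positivity) hk1 (by rw [← hz]; exact hk3)
  have h9 : ∫ x, (((∏ p ∈ I0 N, (1 - x p / Real.sqrt p + 1 / p)) * R x) *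
      (mb1 (IN N) K x * p.eval (Pn N x))) * Um k x ∂P = a k := by
    rw [← spm_orth hpr hP haA hk1 hk3]
    apply integral_congr_ae
    refine Eventually.of_forall fun x => ?_
    beta_reduce
    rw [hax x, hSx x]
    unfold Bz
    rw [← hLdef, ← hK]
    ring
  rw [h9] at hmain
  refine hmain.trans ?_
  have hsX : Real.sqrt X ≤ L ^ 3 := by
    rw [Real.sqrt_le_left (by positivity)]
    calc (X : ℝ) ≤ L ^ 3 := hXL
      _ ≤ (L ^ 3) ^ 2 := by
        rw [← pow_mul]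
        exact pow_le_pow_right₀ hlog1 (by norm_num)
  calc (X : ℝ) * (L ^ 2 * Real.sqrt X * L ^ 3) ≤ L ^ 3 * (L ^ 2 * L ^ 3 * L ^ 3) := by gcongr
    _ = L ^ 11 := by ring
    _ ≤ L ^ 12 := pow_le_pow_right₀ hlog1 (by norm_num)

end Pool.Agent.LSP
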