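import Pool.Agent.Lib_helper68.LSPV.SCV
import Pool.Agent.Lib_helper68.LSPV.SPW
import Pool.Agent.Lib_helper68.KSLF.FIC
import Pool.Agent.Lib_helper41.LVBF.TRM

/-! LSPV: the long Hecke polynomials of the distribution form, at every large prime level. -/

set_option autoImplicit false

namespace Pool.Agent.KSL

open Pool.Agent.LEV Pool.Agent.LVB Pool.Agent.LSP
open Complex MeasureTheory Filter Topology UpperHalfPlane ModularGroup ProbabilityTheory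
open scoped MatrixGroups Modular ENNReal ModularForm ComplexConjugate ContDiff

theorem pdv_ka {ε₂ c : ℝ} (h1 : ε₂ ≤ 1 / 8) (hc : 0 < c) : ∃ N₀ : ℕ, ∀ N : ℕ, N₀ ≤ N →
    ((KA ε₂ N * KA ε₂ N : ℕ) : ℝ) ≤ c * N ∧ (KA ε₂ N : ℝ) ≤ c * N := by
  obtain ⟨N₀, hN₀⟩ := fia_grow (a := 1 / 4) (c := c) (by norm_num) hc
  refine ⟨N₀ + 1, fun N hN => ?_⟩
  have hN1 : (1 : ℝ) ≤ N := by exact_mod_cast (by omega : 1 ≤ N)
  have h2 : (KA ε₂ N : ℝ) ≤ (N : ℝ) ^ ε₂ := Nat.floor_le (by positivity)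
  have h3 : (N : ℝ) ^ ε₂ ≤ (N : ℝ) ^ (1 / 8 : ℝ) :=
    Real.rpow_le_rpow_of_exponent_le hN1 (by linarith)
  have h4 : (N : ℝ) ^ (1 / 8 : ℝ) * (N : ℝ) ^ (1 / 8 : ℝ) = (N : ℝ) ^ (1 / 4 : ℝ) := by
    rw [← Real.rpow_add (by linarith)]
    norm_num
  have h5 : (KA ε₂ N : ℝ) * KA ε₂ N ≤ (N : ℝ) ^ (1 / 8 : ℝ) * (N : ℝ) ^ (1 / 8 : ℝ) :=
    mul_le_mul (h2.trans h3) (h2.trans h3) (Nat.cast_nonneg _) (by positivity)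
  have h6 : (N : ℝ) ^ (1 / 8 : ℝ) ≤ (N : ℝ) ^ (1 / 4 : ℝ) :=
    Real.rpow_le_rpow_of_exponent_le hN1 (by norm_num)
  have h7 := hN₀ N (by omega)
  push_cast
  constructor
  · linarith
  · linarith

/-- the long polynomials and their moments -/
theorem poly_dataV (A : Finset ℕ) (c : ℕ → ℝ) (hA : ∀ a ∈ A, 1 ≤ a) (hc : ∀ a, 0 ≤ c a) (V : ℝ)
    {d : ℝ} (hd : 0 < d) : ∃ (I : Finset ℕ) (X : ℕ) (R : (ℕ → ℝ) → ℝ) (p : Polynomial ℝ) (C₄ : ℝ),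
    (∀ q ∈ I, q.Prime) ∧ HPoly I X R ∧ 0 ≤ C₄ ∧ ∀ ε₂ : ℝ, 0 < ε₂ → ε₂ ≤ 1 / 8 → ∃ N₀ : ℕ,
    ∀ (N : ℕ) [Fact N.Prime], N₀ ≤ N → ∃ s : ℕ → ℝ,
      (∀ m, s m ≠ 0 → 1 ≤ m ∧ m ≤ KA (ε₂ / 4) N ∧ m.primeFactors ⊆ IZ N) ∧
      (∀ m, s m ≠ 0 → 1 ≤ m ∧ m ≤ KA ε₂ N ∧ smooth (zz N) m) ∧
      (∀ x, ∑ m ∈ Finset.Icc 1 (KA ε₂ N), s m * Um m x = p.eval (Pn N x) * R x) ∧
      (∀ P : Measure (ℕ → ℝ), IsST (IZ N) P →
        ∫ x, (∑ m ∈ Finset.Icc 1 (KA ε₂ N), s m * Um m x) ^ 4 ∂P ≤ C₄) ∧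
      |∑ m ∈ Finset.Icc 1 (KA ε₂ N), s m ^ 2 -
        (∑ a ∈ A, c a) * (gaussianReal 0 1).real (Set.Ici V)| ≤ d ∧
      ∀ {ι : Type} [Fintype ι] (f : ι → S2 N), AllNew f →
        ∑ i, om (f i) * |(∑ m ∈ Finset.Icc 1 (KA ε₂ N), s m * Um m (la (f i))) ^ 2 -
          Hd A c (la (f i)) * iV V (Pn N (la (f i)))| ≤ d ∧
        ∑ m ∈ Finset.Icc 1 (KA ε₂ N), s m ^ 2 - d ≤
          ∑ i, om (f i) * (∑ m ∈ Finset.Icc 1 (KA ε₂ N), s m * Um m (la (f i))) ^ 2 ∧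
        ∑ i, om (f i) * (∑ m ∈ Finset.Icc 1 (KA ε₂ N), s m * Um m (la (f i))) ^ 2 ≤
          2 * ∑ m ∈ Finset.Icc 1 (KA ε₂ N), s m ^ 2 ∧
        ∑ i, om (f i) * ((∑ m ∈ Finset.Icc 1 (KA ε₂ N), s m * Um m (la (f i))) ^ 2) ^ 2 ≤ C₄ := by
  classical
  obtain ⟨I, X, R, p, C₄, hI, hR, hch⟩ := s_choiceV A c hA hc V hd
  obtain ⟨ε', hε'0, hε'⟩ : ∃ ε' : ℝ, 0 < ε' ∧ ε' * Real.sqrt (|C₄| + 1) ≤ d := by
    refine ⟨d / Real.sqrt (|C₄| + 1), by positivity, ?_⟩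
    rw [div_mul_cancel₀]
    have : 0 < Real.sqrt (|C₄| + 1) := by positivity
    exact this.ne'
  obtain ⟨ν, N₁, hν, htm⟩ := transfer_mean hε'0
  refine ⟨I, X, R, p, 2 * (|C₄| + 1), hI, hR, by positivity, fun ε₂ hε₂ hε₂8 => ?_⟩
  obtain ⟨N₂, hN₂⟩ := hch ε₂ hε₂
  obtain ⟨N₃, hN₃⟩ := iz_split
  obtain ⟨N₄, hN₄⟩ := pdv_ka (ε₂ := ε₂) (c := (1 / 100) ^ 2) hε₂8 (by norm_num)
  obtain ⟨N₅, hN₅⟩ := pdv_ka (ε₂ := ε₂) (c := ν ^ 2) hε₂8 (by positivity)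
  refine ⟨N₁ + N₂ + N₃ + N₄ + N₅ + 1, fun N _ hN => ?_⟩
  obtain ⟨s, hs1, hs2, hs3, hs4, hs5⟩ := hN₂ N (by omega)
  obtain ⟨-, -, hIZ, hsm, -⟩ := hN₃ N (by omega)
  obtain ⟨k1, k2⟩ := hN₄ N (by omega)
  obtain ⟨k3, -⟩ := hN₅ N (by omega)
  have hN1 : (1 : ℝ) ≤ N := by exact_mod_cast (by omega : 1 ≤ N)
  have hKK : KA (ε₂ / 4) N ≤ KA ε₂ N := by
    unfold KA
    apply Nat.floor_le_floor
    exact Real.rpow_le_rpow_of_exponent_le hN1 (by linarith)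
  have hs1' : ∀ m, s m ≠ 0 → 1 ≤ m ∧ m ≤ KA ε₂ N ∧ m.primeFactors ⊆ IZ N := by
    intro m hm'
    obtain ⟨j1, j2, j3⟩ := hs1 m hm'
    exact ⟨j1, j2.trans hKK, j3⟩
  have hKA1 : 1 ≤ KA ε₂ N := by
    unfold KA
    rw [Nat.one_le_floor_iff]
    exact Real.one_le_rpow hN1 hε₂.le
  have hHS : HPoly (IZ N) (KA ε₂ N) (fun x => ∑ m ∈ Finset.Icc 1 (KA ε₂ N), s m * Um m x) :=
    ⟨s, hs1', fun x => rfl⟩
  have hHS2 : HPoly (IZ N) (KA ε₂ N * KA ε₂ N)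
      (fun x => (∑ m ∈ Finset.Icc 1 (KA ε₂ N), s m * Um m x) ^ 2) := by
    have h1 := hpoly_mul (fun p hp => (hIZ p hp).1) (fun p hp => (hIZ p hp).1) hHS hHS
    rw [Finset.union_self] at h1
    simpa only [sq] using h1
  obtain ⟨P, hP⟩ := st_exists (IZ N) (fun p hp => (hIZ p hp).1)
  have hsq : ∫ x, (∑ m ∈ Finset.Icc 1 (KA ε₂ N), s m * Um m x) ^ 2 ∂P =
      ∑ m ∈ Finset.Icc 1 (KA ε₂ N), s m ^ 2 := st_sq (fun p hp => (hIZ p hp).1) hP hs1'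
  have h4 : ∫ x, ((∑ m ∈ Finset.Icc 1 (KA ε₂ N), s m * Um m x) ^ 2) ^ 2 ∂P ≤ |C₄| + 1 := by
    have h3 := hs3 P hP
    have h4 : ∀ x : ℕ → ℝ, ((∑ m ∈ Finset.Icc 1 (KA ε₂ N), s m * Um m x) ^ 2) ^ 2 =
        (∑ m ∈ Finset.Icc 1 (KA ε₂ N), s m * Um m x) ^ 4 := fun x => by ring
    simp only [h4]
    linarith [le_abs_self C₄]
  refine ⟨s, hs1, fun m hm => ⟨(hs1' m hm).1, (hs1' m hm).2.1,
    (hsm m).mpr ⟨(hs1' m hm).1, (hs1' m hm).2.2⟩⟩, hs2, fun P' hP' => ?_, hs4,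
    fun f hf => ⟨hs5 f hf, ?_, ?_, ?_⟩⟩
  · have h3 := hs3 P' hP'
    have h5 := le_abs_self C₄
    have h6 := abs_nonneg C₄
    linarith
  · obtain ⟨h5, -⟩ := htm N (by omega) f hf (X := KA ε₂ N * KA ε₂ N) k3 (I := IZ N) hIZ hP hHS2
    have h6 := (abs_le.mp h5).1
    have h7 : ε' * Real.sqrt (∫ x, ((∑ m ∈ Finset.Icc 1 (KA ε₂ N), s m * Um m x) ^ 2) ^ 2 ∂P) ≤
        d := (mul_le_mul_of_nonneg_left (Real.sqrt_le_sqrt h4) hε'0.le).trans hε'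
    rw [hsq] at h6
    linarith
  · have hi : Function.Injective f := hf.1
    have hn : ∀ i, IsNew (f i) := fun i => (hf.2 (f i)).mpr ⟨i, rfl⟩
    have h1 := transfer f hi hn (ν := 1 / 100) (by norm_num) (by norm_num)
      (X := KA ε₂ N) hKA1 k2 (I := IZ N) hIZ hP hHS 0
    simp only [zero_mul, add_zero, ne_eq, OfNat.ofNat_ne_zero, not_false_eq_true, zero_pow] at h1
    refine h1.trans ?_
    rw [hsq]
    exact mul_le_mul_of_nonneg_right fic_exp (Finset.sum_nonneg fun m _ => sq_nonneg _)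
  · have hi : Function.Injective f := hf.1
    have hn : ∀ i, IsNew (f i) := fun i => (hf.2 (f i)).mpr ⟨i, rfl⟩
    have h1 := transfer f hi hn (ν := 1 / 100) (by norm_num) (by norm_num)
      (X := KA ε₂ N * KA ε₂ N) (Nat.mul_pos hKA1 hKA1) k1 (I := IZ N) hIZ hP hHS2 0
    simp only [zero_mul, add_zero, ne_eq, OfNat.ofNat_ne_zero, not_false_eq_true, zero_pow] at h1
    refine h1.trans ?_
    have h5 : (0 : ℝ) ≤ ∫ x, ((∑ m ∈ Finset.Icc 1 (KA ε₂ N), s m * Um m x) ^ 2) ^ 2 ∂P :=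
      integral_nonneg fun x => sq_nonneg _
    exact mul_le_mul fic_exp h4 h5 (by norm_num)

end Pool.Agent.KSL
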