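import Pool.Agent.Lib_helper19.LSP.SPP
import Pool.Agent.Lib_helper68.KSLF.HBI
import Pool.Agent.Lib_helper68.KSLF.PNP
import Pool.Agent.Lib_helper68.KSLF.SCH

/-! LSP2, distribution form: the small factor of the mollifier for a polynomial in the tiny primes
times a polynomial in the normalised prime sum (adaptation of helper19's proof). -/

set_option autoImplicit false

namespace Pool.Agent.LSP

open Pool.Agent.LEV Pool.Agent.LVB Pool.Agent.KSL
open Pool.Agent.FG61 (mu phi cc ff AA Lam)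
open Complex MeasureTheory Filter Topology UpperHalfPlane ModularGroup ProbabilityTheory
open scoped MatrixGroups Modular ENNReal ModularForm ComplexConjugate ContDiff

/-- the coefficients of the product of the truncated exponential with a power of the prime sum -/
theorem spv_mb1 {I : Finset ℕ} (hI : ∀ p ∈ I, p.Prime) {P : Measure (ℕ → ℝ)} (hP : IsST I P)
    (K k : ℕ) {m : ℕ} (hm0 : 0 < m) (hm : m.primeFactors ⊆ I) :
    |∫ x, (mb1 I K x * PB I x ^ k) * Um m x ∂P| * Real.sqrt m ≤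
      (2 * K + k : ℝ) ^ k * Real.exp (HB I) := by
  have hH : 0 ≤ HB I / 2 := by
    unfold HB
    have : 0 ≤ ∑ p ∈ I, 1 / (p : ℝ) := Finset.sum_nonneg fun p _ => by positivity
    linarith
  have h1 : ∀ x : ℕ → ℝ, (mb1 I K x * PB I x ^ k) * Um m x = ∑ j ∈ Finset.range (2 * K + 1),
      (Real.exp (HB I / 2) * (-1) ^ j / (j.factorial : ℝ)) * (PB I x ^ (j + k) * Um m x) := by
    intro x
    unfold mb1 ex
    rw [Finset.mul_sum, Finset.sum_mul, Finset.sum_mul]
    apply Finset.sum_congr rfl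
    intro j _
    rw [neg_pow, pow_add]
    ring
  have h2 : ∫ x, (mb1 I K x * PB I x ^ k) * Um m x ∂P = ∑ j ∈ Finset.range (2 * K + 1),
      (Real.exp (HB I / 2) * (-1) ^ j / (j.factorial : ℝ)) * spp_M P I (j + k) m := by
    simp only [h1]
    rw [integral_finsetSum]
    · apply Finset.sum_congr rfl
      intro j _
      rw [integral_const_mul]
      rfl
    · intro j _
      exact (spp_int hP (j + k) hm).const_mul _
  have hs0 : 0 < Real.sqrt m := Real.sqrt_pos.mpr (by exact_mod_cast hm0)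
  rw [h2]
  calc |∑ j ∈ Finset.range (2 * K + 1),
        (Real.exp (HB I / 2) * (-1) ^ j / (j.factorial : ℝ)) * spp_M P I (j + k) m| * Real.sqrt m
      ≤ (∑ j ∈ Finset.range (2 * K + 1),
        |(Real.exp (HB I / 2) * (-1) ^ j / (j.factorial : ℝ)) * spp_M P I (j + k) m|) *
          Real.sqrt m := by
        gcongr
        exact Finset.abs_sum_le_sum_abs _ _
    _ = ∑ j ∈ Finset.range (2 * K + 1),
        Real.exp (HB I / 2) / (j.factorial : ℝ) * (spp_M P I (j + k) m * Real.sqrt m) := by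
        rw [Finset.sum_mul]
        apply Finset.sum_congr rfl
        intro j _
        have h3 := (spp_main hI hP (j + k) m hm0 hm).1
        rw [abs_mul, abs_of_nonneg h3, abs_div, abs_mul, abs_pow, abs_neg, abs_one, one_pow,
          abs_of_pos (Real.exp_pos _), mul_one, abs_of_nonneg (by positivity : (0 : ℝ) ≤ j.factorial)]
        ring
    _ ≤ ∑ j ∈ Finset.range (2 * K + 1), Real.exp (HB I / 2) * (2 * K + k : ℝ) ^ k *
          spp_t (HB I / 2) (j + k) (spp_O I m) := by
        apply Finset.sum_le_sum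
        intro j hj
        rw [Finset.mem_range] at hj
        obtain ⟨h3, h4⟩ := spp_main hI hP (j + k) m hm0 hm
        have hg := spp_g_pos I m
        have hf : (0 : ℝ) < j.factorial := by exact_mod_cast Nat.factorial_pos j
        have ht := spp_t_nonneg hH (j + k) (spp_O I m)
        have h5 : spp_M P I (j + k) m * Real.sqrt m ≤
            (j + k).factorial * spp_t (HB I / 2) (j + k) (spp_O I m) := by
          refine le_trans ?_ h4
          have : 0 ≤ spp_M P I (j + k) m * Real.sqrt m := by positivity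
          nlinarith
        have h6 : ((j + k).factorial : ℝ) ≤ j.factorial * (2 * K + k : ℝ) ^ k := by
          have h7 : (j + k).factorial ≤ j.factorial * (2 * K + k) ^ k := by
            rw [← Nat.factorial_mul_ascFactorial]
            refine Nat.mul_le_mul_left _ ((Nat.ascFactorial_le_pow_add j k).trans ?_)
            exact Nat.pow_le_pow_left (by omega) k
          exact_mod_cast h7
        calc Real.exp (HB I / 2) / (j.factorial : ℝ) * (spp_M P I (j + k) m * Real.sqrt m)
            ≤ Real.exp (HB I / 2) / (j.factorial : ℝ) *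
              (j.factorial * (2 * K + k : ℝ) ^ k * spp_t (HB I / 2) (j + k) (spp_O I m)) := by
              refine mul_le_mul_of_nonneg_left ?_ (by positivity)
              exact h5.trans (mul_le_mul_of_nonneg_right h6 ht)
          _ = _ := by field_simp
    _ = Real.exp (HB I / 2) * (2 * K + k : ℝ) ^ k *
          ∑ j ∈ Finset.range (2 * K + 1), spp_t (HB I / 2) (j + k) (spp_O I m) := by
        rw [Finset.mul_sum]
    _ ≤ Real.exp (HB I / 2) * (2 * K + k : ℝ) ^ k * Real.exp (HB I / 2) := by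
        refine mul_le_mul_of_nonneg_left ?_ (by positivity)
        refine le_trans ?_ (spp_sum_t hH (2 * K + 1 + k) (spp_O I m))
        have h8 : ∑ j ∈ Finset.range (2 * K + 1), spp_t (HB I / 2) (j + k) (spp_O I m) =
            ∑ j ∈ (Finset.range (2 * K + 1)).map (addRightEmbedding k),
              spp_t (HB I / 2) j (spp_O I m) := by
          rw [Finset.sum_map]
          rfl
        rw [h8]
        refine Finset.sum_le_sum_of_subset_of_nonneg ?_ fun j _ _ => spp_t_nonneg hH _ _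
        intro j hj
        rw [Finset.mem_map] at hj
        obtain ⟨i, hi, rfl⟩ := hj
        rw [Finset.mem_range] at hi ⊢
        simp only [addRightEmbedding_apply]
        omega
    _ = _ := by
        have : Real.exp (HB I) = Real.exp (HB I / 2) * Real.exp (HB I / 2) := by
          rw [← Real.exp_add]
          congr 1
          ring
        rw [this]
        ring

/-- the same with a polynomial in the normalised prime sum -/
theorem spv_poly {I : Finset ℕ} (hI : ∀ p ∈ I, p.Prime) {P : Measure (ℕ → ℝ)} (hP : IsST I P)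
    (hHB : 1 ≤ HB I) (K : ℕ) (p : Polynomial ℝ) {m : ℕ} (hm0 : 0 < m) (hm : m.primeFactors ⊆ I) :
    |∫ x, (mb1 I K x * p.eval (PB I x / Real.sqrt (HB I))) * Um m x ∂P| * Real.sqrt m ≤
      (∑ k ∈ Finset.range (p.natDegree + 1), |p.coeff k|) *
        (2 * K + p.natDegree + 1 : ℝ) ^ p.natDegree * Real.exp (HB I) := by
  have hprob := hP.prob
  obtain ⟨D, hD⟩ : ∃ D : ℕ, D = p.natDegree := ⟨_, rfl⟩
  obtain ⟨σ, hσ⟩ : ∃ σ : ℝ, σ = Real.sqrt (HB I) := ⟨_, rfl⟩
  have hσ1 : 1 ≤ σ := by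
    rw [hσ]
    exact Real.one_le_sqrt.2 hHB
  rw [← hσ, ← hD]
  have h1 : ∀ x : ℕ → ℝ, (mb1 I K x * p.eval (PB I x / σ)) * Um m x =
      ∑ k ∈ Finset.range (D + 1), (p.coeff k / σ ^ k) * ((mb1 I K x * PB I x ^ k) * Um m x) := by
    intro x
    rw [Polynomial.eval_eq_sum_range, ← hD, Finset.mul_sum, Finset.sum_mul]
    refine Finset.sum_congr rfl fun k _ => ?_
    rw [div_pow]
    ring
  have hint : ∀ k : ℕ, Integrable (fun x => (mb1 I K x * PB I x ^ k) * Um m x) P := by
    intro k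
    have e1 : ∀ x : ℕ → ℝ, (mb1 I K x * PB I x ^ k) * Um m x = ∑ j ∈ Finset.range (2 * K + 1),
        (Real.exp (HB I / 2) * (-1) ^ j / (j.factorial : ℝ)) * (PB I x ^ (j + k) * Um m x) := by
      intro x
      unfold mb1 ex
      rw [Finset.mul_sum, Finset.sum_mul, Finset.sum_mul]
      apply Finset.sum_congr rfl
      intro j _
      rw [neg_pow, pow_add]
      ring
    simp only [e1]
    exact integrable_finsetSum _ fun j _ => (spp_int hP (j + k) hm).const_mul _
  have h2 : ∫ x, (mb1 I K x * p.eval (PB I x / σ)) * Um m x ∂P =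
      ∑ k ∈ Finset.range (D + 1), (p.coeff k / σ ^ k) *
        ∫ x, (mb1 I K x * PB I x ^ k) * Um m x ∂P := by
    simp only [h1]
    rw [integral_finsetSum _ fun k _ => (hint k).const_mul _]
    refine Finset.sum_congr rfl fun k _ => ?_
    rw [integral_const_mul]
  rw [h2]
  calc |∑ k ∈ Finset.range (D + 1), (p.coeff k / σ ^ k) *
        ∫ x, (mb1 I K x * PB I x ^ k) * Um m x ∂P| * Real.sqrt m
      ≤ (∑ k ∈ Finset.range (D + 1), |(p.coeff k / σ ^ k) *
        ∫ x, (mb1 I K x * PB I x ^ k) * Um m x ∂P|) * Real.sqrt m := by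
        gcongr
        exact Finset.abs_sum_le_sum_abs _ _
    _ ≤ ∑ k ∈ Finset.range (D + 1), |p.coeff k| *
          ((2 * K + D + 1 : ℝ) ^ D * Real.exp (HB I)) := by
        rw [Finset.sum_mul]
        refine Finset.sum_le_sum fun k hk => ?_
        rw [Finset.mem_range] at hk
        have h3 := spv_mb1 hI hP K k hm0 hm
        have h4 : |p.coeff k / σ ^ k| ≤ |p.coeff k| := by
          rw [abs_div, abs_of_pos (by positivity : 0 < σ ^ k)]
          exact div_le_self (abs_nonneg _) (one_le_pow₀ hσ1)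
        have h5 : (2 * K + k : ℝ) ^ k ≤ (2 * K + D + 1 : ℝ) ^ D := by
          have h6 : (2 * K + k) ^ k ≤ (2 * K + D + 1) ^ D := by
            calc (2 * K + k) ^ k ≤ (2 * K + D + 1) ^ k := Nat.pow_le_pow_left (by omega) k
              _ ≤ (2 * K + D + 1) ^ D := Nat.pow_le_pow_right (by omega) (by omega)
          exact_mod_cast h6
        rw [abs_mul]
        calc |p.coeff k / σ ^ k| * |∫ x, (mb1 I K x * PB I x ^ k) * Um m x ∂P| * Real.sqrt m
            = |p.coeff k / σ ^ k| *
              (|∫ x, (mb1 I K x * PB I x ^ k) * Um m x ∂P| * Real.sqrt m) := by ring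
          _ ≤ |p.coeff k| * ((2 * K + k : ℝ) ^ k * Real.exp (HB I)) :=
              mul_le_mul h4 h3 (by positivity) (abs_nonneg _)
          _ ≤ _ := by gcongr
    _ = _ := by
        rw [← Finset.sum_mul]
        ring

/-- sizes -/
theorem spv_size (A₁ D : ℕ) (Cp C2 BR Sq : ℝ) (m₀ : ℕ) : ∃ N₀ : ℕ, ∀ N : ℕ, N₀ ≤ N →
    3 ≤ (N : ℝ) ∧ 1 ≤ Real.log N ∧ Sq ≤ Real.log (Real.log N) ∧ Real.exp C2 ≤ Real.log N ∧
      (m₀ : ℝ) ≤ Real.log N ∧ BR ≤ Real.log N ∧
      Cp * (2 * ((A₁ * ⌈Real.log (Real.log N)⌉₊ : ℕ) : ℝ) + D + 1) ^ D ≤ Real.log N := by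
  have h1 : ∀ᶠ N : ℕ in atTop, 3 ≤ (N : ℝ) :=
    tendsto_natCast_atTop_atTop.eventually_ge_atTop 3
  have h4 : Tendsto (fun N : ℕ => Real.log (N : ℝ)) atTop atTop :=
    Real.tendsto_log_atTop.comp tendsto_natCast_atTop_atTop
  have h5 : Tendsto (fun N : ℕ => Real.log (Real.log (N : ℝ))) atTop atTop :=
    Real.tendsto_log_atTop.comp h4
  have h6 : ∀ᶠ y : ℝ in atTop, |Cp| * (4 * A₁ + D + 1 : ℝ) ^ D * y ^ D ≤ Real.exp y := by
    have h7 := Real.tendsto_pow_mul_exp_neg_atTop_nhds_zero D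
    have h8 : (0 : ℝ) < 1 / (|Cp| * (4 * A₁ + D + 1 : ℝ) ^ D + 1) := by positivity
    filter_upwards [h7.eventually (gt_mem_nhds h8), eventually_ge_atTop 0] with y hy hy0
    rw [lt_div_iff₀ (by positivity), Real.exp_neg] at hy
    have h9 : y ^ D * (Real.exp y)⁻¹ * (|Cp| * (4 * A₁ + D + 1 : ℝ) ^ D) ≤ 1 := by
      have : 0 ≤ y ^ D * (Real.exp y)⁻¹ := by positivity
      nlinarith
    have h10 : 0 < Real.exp y := Real.exp_pos y
    calc |Cp| * (4 * A₁ + D + 1 : ℝ) ^ D * y ^ D =
          (y ^ D * (Real.exp y)⁻¹ * (|Cp| * (4 * A₁ + D + 1 : ℝ) ^ D)) * Real.exp y := by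
          field_simp
      _ ≤ 1 * Real.exp y := mul_le_mul_of_nonneg_right h9 h10.le
      _ = _ := one_mul _
  obtain ⟨N₀, h⟩ := (h1.and ((h4.eventually_ge_atTop 1).and ((h5.eventually_ge_atTop Sq).and
    ((h4.eventually_ge_atTop (Real.exp C2)).and ((h4.eventually_ge_atTop (m₀ : ℝ)).and
    ((h4.eventually_ge_atTop BR).and ((h5.eventually_ge_atTop 1).and
    (h5.eventually h6)))))))).exists_forall_of_atTop
  refine ⟨N₀, fun N hN => ?_⟩
  obtain ⟨a1, a2, a3, a4, a5, a6, a7, a8⟩ := h N hN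
  refine ⟨a1, a2, a3, a4, a5, a6, ?_⟩
  obtain ⟨y, hy⟩ : ∃ y : ℝ, y = Real.log (Real.log N) := ⟨_, rfl⟩
  rw [← hy] at a7 a8 ⊢
  have h7 : (⌈y⌉₊ : ℝ) ≤ 2 * y := by
    have := Nat.ceil_lt_add_one (by linarith : 0 ≤ y)
    linarith
  have h8 : 2 * ((A₁ * ⌈y⌉₊ : ℕ) : ℝ) + D + 1 ≤ (4 * A₁ + D + 1) * y := by
    push_cast
    have h9 : (A₁ : ℝ) * ⌈y⌉₊ ≤ A₁ * (2 * y) := mul_le_mul_of_nonneg_left h7 (Nat.cast_nonneg _)
    have h10 : (D : ℝ) ≤ D * y := le_mul_of_one_le_right (Nat.cast_nonneg _) a7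
    linarith
  calc Cp * (2 * ((A₁ * ⌈y⌉₊ : ℕ) : ℝ) + D + 1) ^ D ≤
        |Cp| * ((4 * A₁ + D + 1) * y) ^ D := by
        refine mul_le_mul (le_abs_self _) (pow_le_pow_left₀ (by positivity) h8 D) (by positivity)
          (abs_nonneg _)
    _ = |Cp| * (4 * A₁ + D + 1 : ℝ) ^ D * y ^ D := by
        rw [mul_pow]
        ring
    _ ≤ Real.exp y := a8
    _ = Real.log N := by rw [hy, Real.exp_log (by linarith)]

end Pool.Agent.LSP
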